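import Mathlib
import Pool.Agent.H76.KF.Crit
import Pool.Agent.H76.KF.Unit
import Pool.Graph.R_seed8.Y789.SG.Main

set_option autoImplicit false

/-!
# The `Σ`-Leopoldt statement from the nonvanishing of a determinant
-/

namespace Pool.Agent.H76.Q2

open NumberField Polynomial
open Pool.Agent.W289.SL Pool.Agent.W332.SL6
open Pool.Agent.Y789.SG (log_unique)
open Pool.Agent.H76.KF (criterion weights log_conj)

theorem sl_abs (p : ℕ) [Fact p.Prime] {d n : ℕ} (hn : 1 < n)
    {L₀ : ℂ_[p] → ℂ_[p]} (hL₀ : IsIwasawaLog p L₀)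
    {F K H : Type} [Field F] [NumberField F] [Field K] [NumberField K] [IsTotallyComplex K]
    [Field H] [NumberField H] [Algebra F K] [Algebra K H]
    (hFK : Module.finrank F K = 2) (hFd : Module.finrank ℚ F = d)
    {z : K} (hζK : IsPrimitiveRoot z n) (α : K) (β : Fin d → K) (hαβ : ∀ i, α ≠ β i ^ n)
    (hexc : ∀ s : Fin d → (K →+* ℂ_[p]),
      (Function.Injective fun j => (s j).comp (algebraMap F K)) →
      ∀ y : Fin d → ℂ_[p], (∀ j, y j ^ n = s j α) → ∀ ξ : ℂ_[p], ξ ^ n = 1 → ξ ≠ 1 →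
      (Matrix.of fun i j => ∑ r : Fin n, ξ ^ (r : ℕ) *
        L₀ (y j - s j z ^ (r : ℕ) * s j (β i))).det ≠ 0)
    (hirr : Irreducible (X ^ n - C α : K[X]))
    (hKH : Module.finrank K H = n) (θ : H) (hθ : θ ^ n = algebraMap K H α)
    (hunit : ∀ i, ∃ ε : (𝓞 H)ˣ, ((ε : 𝓞 H) : H) =
      (θ - algebraMap K H (β i)) / (θ - algebraMap K H z * algebraMap K H (β i)))
    (S : Set (K →+* ℂ_[p])) (hS : IsCMType p F K S) (χ : (H ≃ₐ[K] H) →* ℂ_[p]ˣ) (hχ : χ ≠ 1) :
    SigmaLeopoldt p K H S χ := by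
  classical
  have hn0 : n ≠ 0 := by omega
  have hnpos : 0 < n := by omega
  have : NeZero n := ⟨hn0⟩
  have hd2 : Module.finrank ℚ K = 2 * d := by
    rw [← Module.finrank_mul_finrank ℚ F K, hFd, hFK, mul_comm]
  have hd : 1 ≤ d := by
    have := Module.finrank_pos (R := ℚ) (M := K)
    omega
  -- the extension `H / K`
  have hprim : (primitiveRoots n K).Nonempty := ⟨z, (mem_primitiveRoots hnpos).2 hζK⟩
  have hfd : FiniteDimensional K H := Module.finite_of_finrank_pos (by omega)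
  have hint : IsIntegral K θ := Algebra.IsIntegral.isIntegral θ
  have hmin : minpoly K θ = X ^ n - C α := by
    symm
    apply minpoly.eq_of_irreducible_of_monic hirr _ (monic_X_pow_sub_C _ hn0)
    rw [map_sub, map_pow, aeval_X, aeval_C, hθ, sub_self]
  have htop : IntermediateField.adjoin K {θ} = ⊤ := by
    rw [Field.primitive_element_iff_minpoly_natDegree_eq, hmin, natDegree_X_pow_sub_C, hKH]
  have hsf : IsSplittingField K H (X ^ n - C α) := by
    have h1 : (primitiveRoots (Module.finrank K H) K).Nonempty := by rwa [hKH]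
    have h2 := isSplittingField_X_pow_sub_C_of_root_adjoin_eq_top h1 (a := α) (α := θ)
      (by rw [hKH]; exact hθ) htop
    rwa [hKH] at h2
  have hgal : IsGalois K H := isGalois_of_isSplittingField_X_pow_sub_C hprim hirr H
  set e := autEquivZmod hirr H hζK with he
  set g : ZMod n → (H ≃ₐ[K] H) := fun m => e.symm (Multiplicative.ofAdd m) with hg
  have hgbij : Function.Bijective g :=
    (Multiplicative.ofAdd.trans e.symm.toEquiv).bijective
  have hgθ : ∀ m : ZMod n, g m θ = algebraMap K H z ^ m.val * θ := by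
    intro m
    have h1 := autEquivZmod_symm_apply_natCast hirr H hθ hζK m.val
    rw [ZMod.natCast_zmod_val, Algebra.smul_def, map_pow] at h1
    exact h1
  have hgpow : ∀ m : ZMod n, g m = g 1 ^ m.val := by
    intro m
    simp only [hg]
    rw [← map_pow, ← ofAdd_nsmul, nsmul_one, ZMod.natCast_zmod_val]
  have hg1n : g 1 ^ n = 1 := by
    simp only [hg]
    rw [← map_pow, ← ofAdd_nsmul, nsmul_one, ZMod.natCast_self, ofAdd_zero, map_one]
  set ξ : ℂ_[p] := ((χ (g 1) : ℂ_[p]ˣ) : ℂ_[p]) with hξ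
  have hξn : ξ ^ n = 1 := by
    rw [hξ, ← Units.val_pow_eq_pow_val, ← map_pow, hg1n, map_one, Units.val_one]
  have hχg : ∀ m : ZMod n, ((χ (g m) : ℂ_[p]ˣ) : ℂ_[p]) = ξ ^ m.val := by
    intro m
    rw [hgpow m, map_pow, Units.val_pow_eq_pow_val]
  have hginv : ∀ m : ZMod n, (g m)⁻¹ = g (-m) := by
    intro m
    simp only [hg]
    rw [← map_inv, ofAdd_neg]
  have hξ1 : ξ ≠ 1 := by
    intro h1
    apply hχ
    apply MonoidHom.ext
    intro τ
    obtain ⟨m, rfl⟩ := hgbij.2 τ
    apply Units.ext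
    rw [hχg, h1, one_pow, MonoidHom.one_apply, Units.val_one]
  choose ε hε using hunit
  -- the embeddings
  have hquad : Algebra.IsQuadraticExtension F K := ⟨hFK⟩
  have hcard2 : Nat.card (K ≃ₐ[F] K) = 2 := by
    rw [IsGalois.card_aut_eq_finrank, hFK]
  obtain ⟨c, hc⟩ : ∃ c : K ≃ₐ[F] K, c ≠ 1 := by
    have : Nontrivial (K ≃ₐ[F] K) := by
      rw [← Finite.one_lt_card_iff_nontrivial, hcard2]; norm_num
    exact exists_ne 1
  have hcardF : Fintype.card (F →+* ℂ_[p]) = d := by rw [NumberField.Embeddings.card, hFd]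
  set eF : Fin d ≃ (F →+* ℂ_[p]) := (Fintype.equivFinOfCardEq hcardF).symm with heF
  have hext : ∀ τ' : F →+* ℂ_[p], ∃ s : K →+* ℂ_[p], s.comp (algebraMap F K) = τ' ∧ s ∈ S := by
    intro τ'
    obtain ⟨s, hs⟩ := exists_ext (K := K) τ'
    by_cases hsS : s ∈ S
    · exact ⟨s, hs, hsS⟩
    · refine ⟨s.comp (c : K →+* K), ?_, ?_⟩
      · rw [← hs]
        ext y
        simp
      · by_contra hcon
        exact hsS ((hS c hc s).2 hcon)
  choose s hs hsS using fun j => hext (eF j)
  choose σ hσ using fun j => exists_ext (K := H) (s j)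
  have ev : ∀ j (x : K), σ j (algebraMap K H x) = s j x := fun j x => by rw [← hσ j]; rfl
  have hsinj : Function.Injective fun j => (s j).comp (algebraMap F K) := by
    intro j j' hjj
    simp only [hs] at hjj
    exact eF.injective hjj
  set y : Fin d → ℂ_[p] := fun j => σ j θ with hy
  have hypow : ∀ j, y j ^ n = s j α := by
    intro j
    rw [hy]
    simp only
    rw [← map_pow, hθ, ev]
  intro L hL x hact hlog
  refine criterion d hd2 χ (fun i => xu χ (Additive.ofMul (ε i))) (fun i => xu_inChi χ _) hL σ ?_ x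
    hact (fun j => hlog _ (by rw [hσ j]; exact hsS j))
  -- the regulator matrix
  have hyne : ∀ i j (x : ℂ_[p]), x ^ n = 1 → y j - x * s j (β i) ≠ 0 := by
    intro i j x hx h0
    apply hαβ i
    apply (s j).injective
    rw [map_pow, ← hypow, sub_eq_zero.1 h0, mul_pow, hx, one_mul]
  have hentry : ∀ i j, logLin hL (σ j) (xu χ (Additive.ofMul (ε i))) =
      (1 - ξ⁻¹) * ∑ r : Fin n, ξ ^ (r : ℕ) * L₀ (y j - s j z ^ (r : ℕ) * s j (β i)) := by
    intro i j
    have hιζ : (s j z) ^ n = 1 := by rw [← map_pow, hζK.pow_eq_one, map_one]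
    have h1 : logLin hL (σ j) (xu χ (Additive.ofMul (ε i))) =
        ∑ τ : H ≃ₐ[K] H, ((χ τ⁻¹ : ℂ_[p]ˣ) : ℂ_[p]) * L (σ j (τ ((ε i : 𝓞 H) : H))) := by
      unfold xu
      rw [map_sum]
      refine Finset.sum_congr rfl fun τ _ => ?_
      rw [map_smul, smul_eq_mul, logLin_tmul', one_mul, uMap_coe]
      rfl
    rw [h1, ← Fintype.sum_bijective g hgbij (fun m : ZMod n =>
      ξ ^ (-m).val * (L₀ (y j - s j z ^ (-m).val * s j (β i)) -
        L₀ (y j - s j z ^ (1 - m).val * s j (β i)))) _ (fun m => ?_)]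
    · rw [weights hξn hn (fun r : ZMod n => L₀ (y j - s j z ^ r.val * s j (β i)))]
      congr 1
      refine (Fintype.sum_equiv (ZMod.finEquiv n).toEquiv _ _ fun r => ?_).symm
      have hr : ((ZMod.finEquiv n).toEquiv r).val = (r : ℕ) := by
        cases n with
        | zero => exact absurd rfl hn0
        | succ n => rfl
      rw [hr]
    · rw [hginv, hχg]
      congr 1
      rw [← log_conj hL₀ hn hιζ (hyne i j) m]
      have h2 : L (σ j (g m ((ε i : 𝓞 H) : H))) = L₀ (σ j (g m ((ε i : 𝓞 H) : H))) :=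
        log_unique hL hL₀ ((σ j).comp (g m : H →+* H)) (ε i)
      rw [h2, hε, map_div₀, map_sub, map_sub, map_mul, hgθ]
      have h3 : ∀ x : K, g m (algebraMap K H x) = algebraMap K H x := fun x => (g m).commutes _
      rw [h3, h3, map_div₀, map_sub, map_sub, map_mul, map_mul, map_pow, ev, ev]
  have hM : (Matrix.of fun i j => logLin hL (σ j) (xu χ (Additive.ofMul (ε i)))) =
      (1 - ξ⁻¹) • (Matrix.of fun i j => ∑ r : Fin n, ξ ^ (r : ℕ) *
        L₀ (y j - s j z ^ (r : ℕ) * s j (β i))) := by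
    ext i j
    rw [Matrix.of_apply, hentry, Matrix.smul_apply, Matrix.of_apply, smul_eq_mul]
  rw [hM, Matrix.det_smul]
  refine mul_ne_zero (pow_ne_zero _ ?_) (hexc s hsinj y hypow ξ hξn hξ1)
  rw [sub_ne_zero]
  intro h1
  exact hξ1 (inv_eq_one.1 h1.symm)

end Pool.Agent.H76.Q2
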