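import Mathlib
import Pool.Graph.R_seed8.Y789.SG.Plc

set_option autoImplicit false

/-!
# Embedding of a field generated by `n`-th roots of polynomials in `t` into a place
-/

namespace Pool.Agent.H76.Q2

open Polynomial
open Pool.Agent.W605.LF (aeval_inj)

section basic

variable {C E : Type} [Field C] [CharZero C] [Field E] [Algebra C E]

/-- the derivative of a solution -/
theorem deriv_kum (D : Derivation C E E) (t : E) (ht : D t = 1) {n : ℕ} (hn : 0 < n) (R : C[X])
    (hR : R ≠ 0) (y : E) (hy : y ^ n = aeval t R) :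
    D y = aeval t (derivative R) * y / (n * aeval t R) := by
  have hz : CharZero E := charZero_of_injective_algebraMap (algebraMap C E).injective
  have h0 : aeval t R ≠ 0 := fun h => hR ((aeval_inj D t ht) (h.trans (map_zero _).symm))
  have hy0 : y ≠ 0 := by
    rintro rfl
    rw [zero_pow hn.ne'] at hy
    exact h0 hy.symm
  have hn0 : (n : E) ≠ 0 := by exact_mod_cast hn.ne'
  have h1 : D (y ^ n) = aeval t (derivative R) := by
    rw [hy, D.map_aeval, ht, smul_eq_mul, mul_one]
  rw [Derivation.leibniz_pow, smul_eq_mul, nsmul_eq_mul] at h1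
  rw [← h1, ← hy]
  obtain ⟨m, rfl⟩ : ∃ m, n = m + 1 := ⟨n - 1, by omega⟩
  rw [Nat.add_sub_cancel, pow_succ]
  have h2 : y ^ m ≠ 0 := pow_ne_zero _ hy0
  field_simp

end basic

theorem plcK (C E L : Type) [Field C] [CharZero C] [IsAlgClosed C] [Field E] [Algebra C E]
    [Field L] [Algebra C L] (DE : Derivation C E E) (DL : Derivation C L L) (tE : E) (tL : L)
    (hE : DE tE = 1) (hL : DL tL = 1) {ι : Type} (n : ℕ) (hn : 0 < n) (R : ι → C[X])
    (hR : ∀ j, R j ≠ 0) (x : ι → E) (hx : ∀ j, x j ^ n = aeval tE (R j))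
    (z : ι → L) (hz : ∀ j, z j ^ n = aeval tL (R j)) :
    ∃ (F : IntermediateField C E) (DF : Derivation C F F) (ψ : F →ₐ[C] L) (xF : ι → F) (tF : F),
      (∀ f : F, DE (f : E) = ((DF f : F) : E)) ∧ (∀ j, (xF j : E) = x j) ∧
      (tF : E) = tE ∧ ψ tF = tL ∧
      (∀ f : F, ψ (DF f) = DL (ψ f)) ∧ (∀ j, ψ (xF j) ^ n = aeval tL (R j)) := by
  let K := FractionRing C[X]
  let iE : K →ₐ[C] E := IsFractionRing.liftAlgHom (g := aeval tE) (aeval_inj DE tE hE)
  let iL : K →ₐ[C] L := IsFractionRing.liftAlgHom (g := aeval tL) (aeval_inj DL tL hL)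
  have hiE : ∀ f : C[X], iE (algebraMap C[X] K f) = aeval tE f := fun f =>
    IsFractionRing.lift_algebraMap (aeval_inj DE tE hE) f
  have hiL : ∀ f : C[X], iL (algebraMap C[X] K f) = aeval tL f := fun f =>
    IsFractionRing.lift_algebraMap (aeval_inj DL tL hL) f
  let _ : Algebra K E := iE.toRingHom.toAlgebra
  let _ : Algebra K L := iL.toRingHom.toAlgebra
  have aE : ∀ z : K, algebraMap K E z = iE z := fun _ => rfl
  have aL : ∀ z : K, algebraMap K L z = iL z := fun _ => rfl
  have : IsScalarTower C K E := IsScalarTower.of_algebraMap_eq fun c => (iE.commutes c).symm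
  have : IsScalarTower C K L := IsScalarTower.of_algebraMap_eq fun c => (iL.commutes c).symm
  -- the constants
  have base : ∀ z : K, ∃ z' : K, DE (algebraMap K E z) = algebraMap K E z' ∧
      DL (algebraMap K L z) = algebraMap K L z' := by
    intro z
    obtain ⟨a, b, hb, rfl⟩ := IsFractionRing.div_surjective C[X] z
    have dE : ∀ f : C[X], DE (aeval tE f) = aeval tE (derivative f) := by
      intro f; rw [DE.map_aeval, hE, smul_eq_mul, mul_one]
    have dL : ∀ f : C[X], DL (aeval tL f) = aeval tL (derivative f) := by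
      intro f; rw [DL.map_aeval, hL, smul_eq_mul, mul_one]
    refine ⟨(algebraMap C[X] K b)⁻¹ ^ 2 * (algebraMap C[X] K b * algebraMap C[X] K (derivative a) -
      algebraMap C[X] K a * algebraMap C[X] K (derivative b)), ?_, ?_⟩
    · simp only [aE, map_div₀, hiE, Derivation.leibniz_div, dE, smul_eq_mul, map_mul, map_sub,
        map_pow, map_inv₀]
    · simp only [aL, map_div₀, hiL, Derivation.leibniz_div, dL, smul_eq_mul, map_mul, map_sub,
        map_pow, map_inv₀]
  -- the polynomials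
  let Q : ι → K[X] := fun j => X ^ n - Polynomial.C (algebraMap C[X] K (R j))
  have hQm : ∀ j, (Q j).Monic := fun j => monic_X_pow_sub_C _ hn.ne'
  have evE : ∀ j, ∀ y : E, aeval y (Q j) = y ^ n - aeval tE (R j) := by
    intro j y
    simp only [Q, map_sub, map_pow, aeval_X, aeval_C, aE, hiE]
  have evL : ∀ j, ∀ y : L, aeval y (Q j) = y ^ n - aeval tL (R j) := by
    intro j y
    simp only [Q, map_sub, map_pow, aeval_X, aeval_C, aL, hiL]
  have hQL : ∀ j, (Q j).map (algebraMap K L) = X ^ n - Polynomial.C (aeval tL (R j)) := by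
    intro j
    simp only [Q, Polynomial.map_sub, Polynomial.map_pow, Polynomial.map_X, Polynomial.map_C, aL,
      hiL]
  have hnC : NeZero (n : C) := ⟨by exact_mod_cast hn.ne'⟩
  obtain ⟨ζ, hζ⟩ := HasEnoughRootsOfUnity.exists_primitiveRoot C n
  have hζL : IsPrimitiveRoot (algebraMap C L ζ) n := hζ.map_of_injective (algebraMap C L).injective
  have hint : ∀ s ∈ Set.range x, IsIntegral K s ∧ ((minpoly K s).map (algebraMap K L)).Splits := by
    rintro _ ⟨j, rfl⟩
    have h0 : aeval (x j) (Q j) = 0 := by rw [evE, hx, sub_self]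
    refine ⟨⟨Q j, hQm j, by rwa [← aeval_def]⟩, ?_⟩
    have hQs : ((Q j).map (algebraMap K L)).Splits := by
      rw [hQL]
      exact X_pow_sub_C_splits_of_isPrimitiveRoot hζL (hz j)
    exact hQs.of_dvd ((hQm j).map _).ne_zero (Polynomial.map_dvd _ (minpoly.dvd K _ h0))
  obtain ⟨ψ⟩ := IntermediateField.nonempty_algHom_adjoin_of_splits hint
  set F0 := IntermediateField.adjoin K (Set.range x) with hF0
  have hxm : ∀ j, x j ∈ F0 := fun j => IntermediateField.subset_adjoin K _ ⟨j, rfl⟩
  -- images of the solutions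
  have hroot : ∀ j, (ψ ⟨x j, hxm j⟩) ^ n = aeval tL (R j) := by
    intro j
    have h0 : aeval (ψ ⟨x j, hxm j⟩) (Q j) = 0 := by
      rw [aeval_algHom_apply]
      have h1 : aeval (⟨x j, hxm j⟩ : F0) (Q j) = 0 := by
        apply (algebraMap F0 E).injective
        rw [map_zero, ← aeval_algebraMap_apply]
        change aeval (x j) (Q j) = 0
        rw [evE, hx, sub_self]
      rw [h1, map_zero]
    rw [evL, sub_eq_zero] at h0
    exact h0
  -- closure
  have key : ∀ y (hy : y ∈ F0), ∃ h : DE y ∈ F0, ψ ⟨DE y, h⟩ = DL (ψ ⟨y, hy⟩) := by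
    intro y hy
    induction hy using IntermediateField.adjoin_induction with
    | mem y hy =>
      obtain ⟨j, rfl⟩ := hy
      have he := deriv_kum DE tE hE hn (R j) (hR j) (x j) (hx j)
      have he' := deriv_kum DL tL hL hn (R j) (hR j) _ (hroot j)
      let xj : F0 := ⟨x j, hxm j⟩
      let q : F0 := algebraMap K F0 (algebraMap C[X] K (derivative (R j))) * xj /
        (n * algebraMap K F0 (algebraMap C[X] K (R j)))
      have hq : F0.val q = DE (x j) := by
        rw [he]
        simp only [q, map_div₀, map_mul, map_natCast]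
        have h1 : ∀ f : C[X], F0.val (algebraMap K F0 (algebraMap C[X] K f)) = aeval tE f :=
          fun f => hiE f
        rw [h1, h1]
        rfl
      have hmem : DE (x j) ∈ F0 := hq ▸ q.2
      refine ⟨hmem, ?_⟩
      have e1 : (⟨DE (x j), hmem⟩ : F0) = q := Subtype.ext hq.symm
      rw [e1]
      change ψ q = DL (ψ xj)
      rw [he']
      simp only [q, map_div₀, map_mul, map_natCast, AlgHom.commutes, aL, hiL]
      rfl
    | algebraMap z =>
      obtain ⟨z', h1, h2⟩ := base z
      have hmem : DE (algebraMap K E z) ∈ F0 := by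
        rw [h1]; exact F0.algebraMap_mem z'
      refine ⟨hmem, ?_⟩
      have e1 : (⟨DE (algebraMap K E z), hmem⟩ : F0) = algebraMap K F0 z' := Subtype.ext h1
      have e2 : (⟨algebraMap K E z, F0.algebraMap_mem z⟩ : F0) = algebraMap K F0 z := rfl
      rw [e1, e2, AlgHom.commutes, AlgHom.commutes, h2]
    | add y z hy hz ihy ihz =>
      obtain ⟨h1, h2⟩ := ihy
      obtain ⟨h3, h4⟩ := ihz
      have hmem : DE (y + z) ∈ F0 := by rw [map_add]; exact add_mem h1 h3
      refine ⟨hmem, ?_⟩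
      have e1 : (⟨DE (y + z), hmem⟩ : F0) = ⟨DE y, h1⟩ + ⟨DE z, h3⟩ :=
        Subtype.ext (map_add DE y z)
      have e2 : (⟨y + z, add_mem hy hz⟩ : F0) = ⟨y, hy⟩ + ⟨z, hz⟩ := rfl
      rw [e1, e2, map_add, map_add, map_add, h2, h4]
    | inv y hy ihy =>
      obtain ⟨h1, h2⟩ := ihy
      have e0 : DE y⁻¹ = -y⁻¹ ^ 2 * DE y := by rw [Derivation.leibniz_inv, smul_eq_mul]
      have hmem : DE y⁻¹ ∈ F0 := by
        rw [e0]
        exact mul_mem (neg_mem (pow_mem (inv_mem hy) 2)) h1
      refine ⟨hmem, ?_⟩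
      have e1 : (⟨DE y⁻¹, hmem⟩ : F0) = -(⟨y, hy⟩ : F0)⁻¹ ^ 2 * ⟨DE y, h1⟩ := Subtype.ext e0
      have e2 : (⟨y⁻¹, inv_mem hy⟩ : F0) = (⟨y, hy⟩ : F0)⁻¹ := rfl
      rw [e1, e2, map_inv₀, Derivation.leibniz_inv, map_mul, map_neg, map_pow, map_inv₀, h2,
        smul_eq_mul]
    | mul y z hy hz ihy ihz =>
      obtain ⟨h1, h2⟩ := ihy
      obtain ⟨h3, h4⟩ := ihz
      have e0 : DE (y * z) = y * DE z + z * DE y := by
        rw [Derivation.leibniz, smul_eq_mul, smul_eq_mul]
      have hmem : DE (y * z) ∈ F0 := by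
        rw [e0]; exact add_mem (mul_mem hy h3) (mul_mem hz h1)
      refine ⟨hmem, ?_⟩
      have e1 : (⟨DE (y * z), hmem⟩ : F0) = ⟨y, hy⟩ * ⟨DE z, h3⟩ + ⟨z, hz⟩ * ⟨DE y, h1⟩ :=
        Subtype.ext e0
      have e2 : (⟨y * z, mul_mem hy hz⟩ : F0) = ⟨y, hy⟩ * ⟨z, hz⟩ := rfl
      rw [e1, e2, map_add, map_mul, map_mul, map_mul, Derivation.leibniz, h2, h4, smul_eq_mul,
        smul_eq_mul]
  -- the results
  let F : IntermediateField C E := F0.restrictScalars C
  have hFm : ∀ y : E, y ∈ F → y ∈ F0 := fun y hy => hy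
  have hFm' : ∀ y : E, y ∈ F0 → y ∈ F := fun y hy => hy
  let DF : Derivation C F F := Derivation.mk'
    { toFun := fun f => ⟨DE (f : E), hFm' _ (key f.1 (hFm _ f.2)).1⟩
      map_add' := fun f g => Subtype.ext (map_add DE (f : E) (g : E))
      map_smul' := fun c f => Subtype.ext (DE.map_smul c (f : E)) }
    (fun f g => Subtype.ext (by
      change DE ((f : E) * (g : E)) = (f : E) * DE (g : E) + (g : E) * DE (f : E)
      rw [Derivation.leibniz, smul_eq_mul, smul_eq_mul]))
  let ψF : F →ₐ[C] L :=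
    { toFun := fun f => ψ ⟨f.1, hFm _ f.2⟩
      map_one' := map_one ψ
      map_mul' := fun f g => map_mul ψ ⟨f.1, hFm _ f.2⟩ ⟨g.1, hFm _ g.2⟩
      map_zero' := map_zero ψ
      map_add' := fun f g => map_add ψ ⟨f.1, hFm _ f.2⟩ ⟨g.1, hFm _ g.2⟩
      commutes' := fun c => by
        have e1 := ψ.commutes (algebraMap C K c)
        have e2 : algebraMap K L (algebraMap C K c) = algebraMap C L c :=
          (IsScalarTower.algebraMap_apply C K L c).symm
        rw [e2] at e1
        rw [← e1]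
        congr 1
        apply Subtype.ext
        exact IsScalarTower.algebraMap_apply C K E c }
  have htm : tE ∈ F0 := by
    have h1 : tE = algebraMap K E (algebraMap C[X] K X) := by rw [aE, hiE, aeval_X]
    rw [h1]
    exact F0.algebraMap_mem _
  refine ⟨F, DF, ψF, fun j => ⟨x j, hFm' _ (hxm j)⟩, ⟨tE, hFm' _ htm⟩, fun f => rfl,
    fun j => rfl, rfl, ?_, ?_, ?_⟩
  · have e1 : (⟨tE, htm⟩ : F0) = algebraMap K F0 (algebraMap C[X] K X) := by
      apply Subtype.ext
      change tE = algebraMap K E (algebraMap C[X] K X)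
      rw [aE, hiE, aeval_X]
    change ψ ⟨tE, htm⟩ = tL
    rw [e1, AlgHom.commutes, aL, hiL, aeval_X]
  · intro f
    exact (key f.1 (hFm _ f.2)).2
  · intro j
    exact hroot j

end Pool.Agent.H76.Q2
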