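import Mathlib
import Pool.Graph.R_seed8.W253.LF.Ost
import Pool.Graph.R_seed8.W254.LF.Det
import Pool.Graph.R_seed8.Y789.SG.Pla
import Pool.Agent.H76.Q2.Plc

set_option autoImplicit false

/-!
# The functional determinant for two units
-/

namespace Pool.Agent.H76.Q2

open Polynomial
open Pool.Agent.W239.LF (co alg_eq henselPS)
open Pool.Agent.Y789.SG (D0 r0 t0 D0_t0 r0_D0 co_ne res_unit res_unif cc_aeval co_aeval)

attribute [-instance] HahnSeries.powerSeriesAlgebra

/-- The data: `R_j`, `β_ij` with `R_j - β_ij ^ n = a_ij X ^ m_ij`. -/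
structure Dat2 (C : Type) [Field C] (n : ℕ) where
  R : Fin 2 → C[X]
  β : Fin 2 → Fin 2 → C[X]
  a : Fin 2 → Fin 2 → C
  m : Fin 2 → Fin 2 → ℕ
  ζ : Fin 2 → C
  rel : ∀ i j, R j - β i j ^ n = Polynomial.C (a i j) * X ^ (m i j)
  ane : ∀ i j, a i j ≠ 0
  R0 : ∀ j, (R j).eval 0 ≠ 0
  R1 : ∀ j, (R j).eval 1 ≠ 0
  prim : ∀ j, IsPrimitiveRoot (ζ j) n
  mne : m 0 0 * m 1 1 ≠ m 0 1 * m 1 0

lemma prod_fin {K : Type} [Field K] {n : ℕ} (hn : 0 < n) {ζ : K} (hζ : IsPrimitiveRoot ζ n)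
    {F : Type} [Field F] (φ : K →+* F) (x y : F) :
    ∏ s : Fin n, (x - φ (ζ ^ (s : ℕ)) * y) = x ^ n - y ^ n := by
  by_cases hy : y = 0
  · subst hy
    simp [zero_pow hn.ne']
  · have h1 : (X ^ n - C (1 : K)) = ∏ i ∈ Finset.range n, (X - C (ζ ^ i * 1)) :=
      X_pow_sub_C_eq_prod hζ hn (one_pow n)
    have h2 := congrArg (Polynomial.eval₂ φ (x / y)) h1
    rw [eval₂_sub, eval₂_pow, eval₂_X, eval₂_C, map_one, eval₂_finsetProd] at h2
    simp only [eval₂_sub, eval₂_X, eval₂_C, mul_one] at h2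
    rw [Fin.prod_univ_eq_prod_range (fun s => x - φ (ζ ^ s) * y) n]
    have h4 : ∀ s : ℕ, x - φ (ζ ^ s) * y = y * (x / y - φ (ζ ^ s)) := by
      intro s
      field_simp
    rw [Finset.prod_congr rfl fun s _ => h4 s, Finset.prod_mul_distrib, ← h2, Finset.prod_const,
      Finset.card_range, mul_sub, ← mul_pow, mul_div_cancel₀ _ hy, mul_one]

lemma prod_fin' {K : Type} [Field K] {n : ℕ} (hn : 0 < n) {ζ : K} (hζ : IsPrimitiveRoot ζ n)
    (x y : PowerSeries K) :
    ∏ s : Fin n, (x - PowerSeries.C (ζ ^ (s : ℕ)) * y) = x ^ n - y ^ n := by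
  apply HahnSeries.ofPowerSeries_injective (Γ := ℤ) (R := K)
  have h := prod_fin hn hζ ((co K).comp (PowerSeries.C (R := K))) (co K x) (co K y)
  change co K _ = co K _
  rw [map_prod, map_sub (co K) (x ^ n), map_pow, map_pow, ← h]
  refine Finset.prod_congr rfl fun s _ => ?_
  rw [map_sub, map_mul]
  rfl

/-- a product which is a power of a uniformiser times a constant -/
lemma res_fam' {K : Type} [Field K] {n : ℕ} (hn : 0 < n) {ζ : K} (hζ : IsPrimitiveRoot ζ n)
    (c : Fin n → K)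
    (Y B : PowerSeries K) (hY : PowerSeries.constantCoeff Y ≠ 0) (a : K) (ha : a ≠ 0) (m : ℕ)
    (h : Y ^ n - B ^ n = PowerSeries.C a * PowerSeries.X ^ m) :
    ∃ s0, ∑ s, c s * r0 K (D0 K (co K (Y - PowerSeries.C (ζ ^ (s : ℕ)) * B)) /
      co K (Y - PowerSeries.C (ζ ^ (s : ℕ)) * B)) = m * c s0 := by
  classical
  set U : Fin n → PowerSeries K := fun s => Y - PowerSeries.C (ζ ^ (s : ℕ)) * B with hU
  have hprod : ∏ s, U s = PowerSeries.C a * PowerSeries.X ^ m := by
    rw [← h]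
    exact prod_fin' hn hζ Y B
  rcases Nat.eq_zero_or_pos m with hm | hm
  · refine ⟨⟨0, hn⟩, ?_⟩
    rw [hm, Nat.cast_zero, zero_mul]
    refine Finset.sum_eq_zero fun s _ => ?_
    rw [res_unit, mul_zero]
    have h1 := congrArg (PowerSeries.constantCoeff (R := K)) hprod
    rw [hm, pow_zero, mul_one, map_prod, PowerSeries.constantCoeff_C] at h1
    rw [← h1] at ha
    exact Finset.prod_ne_zero_iff.1 ha s (Finset.mem_univ _)
  · have h0 : ∏ s, PowerSeries.constantCoeff (U s) = 0 := by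
      rw [← map_prod, hprod, map_mul, map_pow, PowerSeries.constantCoeff_X,
        zero_pow hm.ne', mul_zero]
    obtain ⟨s0, -, hs0⟩ := Finset.prod_eq_zero_iff.1 h0
    have hcU : ∀ s, PowerSeries.constantCoeff (U s) = PowerSeries.constantCoeff Y -
        ζ ^ (s : ℕ) * PowerSeries.constantCoeff B := by
      intro s
      rw [hU, map_sub, map_mul, PowerSeries.constantCoeff_C]
    have hne : ∀ s, s ≠ s0 → PowerSeries.constantCoeff (U s) ≠ 0 := by
      intro s hs h1
      rw [hcU] at h1 hs0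
      have h2 : (ζ ^ (s : ℕ) - ζ ^ (s0 : ℕ)) * PowerSeries.constantCoeff B = 0 := by
        linear_combination hs0 - h1
      rcases mul_eq_zero.1 h2 with h3 | h3
      · apply hs
        apply Fin.ext
        exact hζ.pow_inj s.2 s0.2 (sub_eq_zero.1 h3)
      · apply hY
        rw [h3] at h1
        simpa using h1
    set g : PowerSeries K := ∏ s ∈ Finset.univ.erase s0, U s with hg
    have hgc : PowerSeries.constantCoeff g ≠ 0 := by
      rw [hg, map_prod, Finset.prod_ne_zero_iff]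
      intro s hs
      exact hne s (Finset.ne_of_mem_erase hs)
    rw [← Finset.mul_prod_erase _ _ (Finset.mem_univ s0), ← hg] at hprod
    have h4 : U s0 = PowerSeries.C a * g⁻¹ * PowerSeries.X ^ m := by
      have hgg : g * g⁻¹ = 1 := PowerSeries.mul_inv_cancel g hgc
      calc U s0 = U s0 * (g * g⁻¹) := by rw [hgg, mul_one]
        _ = (U s0 * g) * g⁻¹ := by ring
        _ = _ := by rw [hprod]; ring
    refine ⟨s0, ?_⟩
    rw [Finset.sum_eq_single s0]
    · change c s0 * r0 K (D0 K (co K (U s0)) / co K (U s0)) = _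
      rw [mul_comm (m : K) (c s0)]
      congr 1
      set w : PowerSeries K := PowerSeries.C a * g⁻¹ with hw
      have hwc : PowerSeries.constantCoeff w ≠ 0 := by
        rw [hw, map_mul, PowerSeries.constantCoeff_C, PowerSeries.constantCoeff_inv]
        exact mul_ne_zero ha (inv_ne_zero hgc)
      have hw0 : co K w ≠ 0 := co_ne K (by rintro h5; rw [h5, map_zero] at hwc; exact hwc rfl)
      have hX0 : co K (PowerSeries.X (R := K)) ≠ 0 := co_ne K PowerSeries.X_ne_zero
      have hX1 : D0 K (co K (PowerSeries.X (R := K))) = 1 := D0_t0 K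
      rw [h4, map_mul, map_pow, Derivation.leibniz, Derivation.leibniz_pow, hX1]
      simp only [smul_eq_mul, nsmul_eq_mul, mul_one]
      have e1 : (co K w * ((m : LaurentSeries K) * co K PowerSeries.X ^ (m - 1)) +
          co K PowerSeries.X ^ m * D0 K (co K w)) / (co K w * co K PowerSeries.X ^ m) =
          (m : K) • (D0 K (co K (PowerSeries.X * 1)) / co K (PowerSeries.X * 1)) +
            D0 K (co K w) / co K w := by
        rw [mul_one, hX1, Algebra.smul_def, map_natCast]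
        obtain ⟨m', rfl⟩ : ∃ m', m = m' + 1 := ⟨m - 1, by omega⟩
        rw [Nat.add_sub_cancel, pow_succ]
        field_simp
      rw [e1, map_add, map_smul, res_unit K w hwc,
        res_unif K 1 (by rw [map_one]; exact one_ne_zero), smul_eq_mul, mul_one, add_zero]
    · intro s _ hs
      change c s * r0 K (D0 K (co K (U s)) / co K (U s)) = 0
      rw [res_unit K _ (hne s hs), mul_zero]
    · intro h
      exact absurd (Finset.mem_univ _) h

/-- the roots in the field of Laurent series -/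
lemma root_series {K : Type} [Field K] [CharZero K] [IsAlgClosed K] {n : ℕ} (hn : 0 < n) (R : K[X])
    (hR : R.eval 0 ≠ 0) :
    ∃ u : PowerSeries K, u ^ n = aeval PowerSeries.X R ∧ PowerSeries.constantCoeff u ≠ 0 := by
  obtain ⟨ρ, hρ⟩ := IsAlgClosed.exists_pow_nat_eq (R.eval 0) hn
  have hρ0 : ρ ≠ 0 := by
    rintro rfl
    rw [zero_pow hn.ne'] at hρ
    exact hR hρ.symm
  set r : PowerSeries K := aeval PowerSeries.X R with hr
  have hrc : PowerSeries.constantCoeff r = R.eval 0 := by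
    rw [hr, cc_aeval, PowerSeries.constantCoeff_X]
  set F : (PowerSeries K)[X] := X ^ n - C r with hF
  obtain ⟨y, hy, hy'⟩ := henselPS F ρ
    (by
      rw [hF, eval_sub, eval_pow, eval_X, eval_C, map_sub, map_pow, PowerSeries.constantCoeff_C,
        hρ, hrc, sub_self])
    (by
      rw [hF, Polynomial.map_sub, Polynomial.map_pow, Polynomial.map_X, Polynomial.map_C,
        derivative_sub, derivative_C, sub_zero, derivative_X_pow, eval_mul, eval_pow, eval_X,
        eval_C]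
      exact mul_ne_zero (by exact_mod_cast hn.ne') (pow_ne_zero _ hρ0))
  refine ⟨y, ?_, by rw [hy']; exact hρ0⟩
  rw [Polynomial.IsRoot, hF, eval_sub, eval_pow, eval_X, eval_C, sub_eq_zero] at hy
  exact hy

/-- **The functional determinant does not vanish.** -/
theorem fun_det2 {C : Type} [Field C] [CharZero C] [IsAlgClosed C] {n : ℕ} (hn : 0 < n)
    (Δ : Dat2 C n) (c : Fin n → C) (hc : ∀ s, c s ^ n = 1)
    {E : Type} [Field E] [CharZero E] [Algebra C E] (DE : Derivation C E E) (tE : E)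
    (hE : DE tE = 1)
    (hconst : ∀ x : E, DE x = 0 → ∃ c : C, algebraMap C E c = x) (y : Fin 2 → E)
    (hy : ∀ j, y j ^ n = aeval tE (Δ.R j))
    (Λ : Matrix (Fin 2) (Fin 2) E)
    (hΛ : ∀ i j, DE (Λ i j) = ∑ s : Fin n, algebraMap C E (c s) *
      (DE (y j - algebraMap C E (Δ.ζ j ^ (s : ℕ)) * aeval tE (Δ.β i j)) /
        (y j - algebraMap C E (Δ.ζ j ^ (s : ℕ)) * aeval tE (Δ.β i j)))) : Λ.det ≠ 0 := by
  classical
  intro hdet
  have : NeZero n := ⟨hn.ne'⟩
  have hR0 : ∀ j, Δ.R j ≠ 0 := fun j h => Δ.R0 j (by rw [h, eval_zero])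
  choose u hu hu0 using fun j => root_series hn (Δ.R j) (Δ.R0 j)
  obtain ⟨F, DF, ψ, xF, tF, hDF, hxF, htF, hψt, hψD, hψx⟩ := plcK C E (LaurentSeries C) DE (D0 C)
    tE (t0 C) hE (D0_t0 C) n hn Δ.R hR0 y hy (fun j => co C (u j)) (fun j => by
      rw [← map_pow, hu, co_aeval])
  have hYex : ∀ j, ∃ Y : PowerSeries C, ψ (xF j) = co C Y ∧ Y ^ n = aeval PowerSeries.X (Δ.R j) ∧
      PowerSeries.constantCoeff Y ≠ 0 := by
    intro j
    have hu1 : co C (u j) ≠ 0 := co_ne C (by rintro h; exact hu0 j (by rw [h, map_zero]))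
    have h1 : (ψ (xF j) / co C (u j)) ^ n = 1 := by
      rw [div_pow, hψx, ← map_pow, hu, co_aeval, div_self]
      rw [← co_aeval, ← hu, map_pow]
      exact pow_ne_zero _ hu1
    have hζL : IsPrimitiveRoot (algebraMap C (LaurentSeries C) (Δ.ζ j)) n :=
      (Δ.prim j).map_of_injective (algebraMap C (LaurentSeries C)).injective
    obtain ⟨i, -, hi⟩ := hζL.eq_pow_of_pow_eq_one h1
    refine ⟨PowerSeries.C (Δ.ζ j ^ i) * u j, ?_, ?_, ?_⟩
    · rw [map_mul, ← alg_eq, map_pow, hi, div_mul_cancel₀ _ hu1]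
    · rw [mul_pow, hu, ← map_pow, ← pow_mul, mul_comm i n, pow_mul, (Δ.prim j).pow_eq_one,
        one_pow, map_one, one_mul]
    · rw [map_mul, PowerSeries.constantCoeff_C]
      exact mul_ne_zero (pow_ne_zero _ ((Δ.prim j).ne_zero hn.ne')) (hu0 j)
  choose Y hY1 hY2 hY3 using hYex
  let r : F →ₗ[C] C := r0 C ∘ₗ ψ.toLinearMap
  have hr : ∀ f, r (DF f) = 0 := by
    intro f
    change r0 C (ψ (DF f)) = 0
    rw [hψD, r0_D0]
  let V : Fin n → Fin 2 → Fin 2 → F := fun s i j =>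
    xF j - algebraMap C F (Δ.ζ j ^ (s : ℕ)) * aeval tF (Δ.β i j)
  have hVE : ∀ s i j, ((V s i j : F) : E) =
      y j - algebraMap C E (Δ.ζ j ^ (s : ℕ)) * aeval tE (Δ.β i j) := by
    intro s i j
    have h1 : ((aeval tF (Δ.β i j) : F) : E) = aeval tE (Δ.β i j) := by
      rw [← htF]
      exact (aeval_algHom_apply F.val tF (Δ.β i j)).symm
    change ((xF j : F) : E) - algebraMap C E (Δ.ζ j ^ (s : ℕ)) * ((aeval tF (Δ.β i j) : F) : E) = _
    rw [hxF, h1]
  have hVψ : ∀ s i j, ψ (V s i j) =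
      co C (Y j - PowerSeries.C (Δ.ζ j ^ (s : ℕ)) * aeval PowerSeries.X (Δ.β i j)) := by
    intro s i j
    change ψ (xF j - algebraMap C F (Δ.ζ j ^ (s : ℕ)) * aeval tF (Δ.β i j)) = _
    rw [map_sub, map_mul, AlgHom.commutes, ← aeval_algHom_apply, hψt, hY1, map_sub, map_mul,
      co_aeval, alg_eq]
  let W : Matrix (Fin 2) (Fin 2) F := Matrix.of fun i j =>
    ∑ s, c s • (DF (V s i j) / V s i j)
  have hΛW : ∀ i j, DE (Λ i j) = algebraMap F E (W i j) := by
    intro i j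
    rw [hΛ]
    change _ = algebraMap F E (∑ s, c s • (DF (V s i j) / V s i j))
    rw [map_sum]
    refine Finset.sum_congr rfl fun s _ => ?_
    rw [Algebra.smul_def, map_mul, ← IsScalarTower.algebraMap_apply, map_div₀]
    congr 1
    change _ = ((DF (V s i j) : F) : E) / ((V s i j : F) : E)
    rw [← hDF, hVE]
  have hcz : CharZero E := inferInstance
  have h1 := Pool.Agent.W254.LF.det_of Pool.Agent.W253.LF.t_OST C F E DF DE (fun f => hDF f)
    hconst r hr 2 Λ W hΛW hdet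
  have hrW : ∀ i j, ∃ s0, r (W i j) = Δ.m i j * c s0 := by
    intro i j
    obtain ⟨s0, hs0⟩ := res_fam' hn (Δ.prim j) c (Y j) (aeval PowerSeries.X (Δ.β i j)) (hY3 j)
      (Δ.a i j) (Δ.ane i j) (Δ.m i j) (by
        rw [hY2, ← map_pow, ← map_sub, Δ.rel, map_mul, aeval_C, map_pow, aeval_X]
        rfl)
    refine ⟨s0, ?_⟩
    rw [← hs0]
    change r (∑ s, c s • (DF (V s i j) / V s i j)) = _
    rw [map_sum]
    refine Finset.sum_congr rfl fun s _ => ?_
    rw [map_smul, smul_eq_mul]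
    congr 1
    change r0 C (ψ (DF (V s i j) / V s i j)) = _
    rw [map_div₀, hψD, hVψ]
  obtain ⟨s1, e1⟩ := hrW 0 0
  obtain ⟨s2, e2⟩ := hrW 1 1
  obtain ⟨s3, e3⟩ := hrW 0 1
  obtain ⟨s4, e4⟩ := hrW 1 0
  rw [Matrix.det_fin_two, Matrix.map_apply, Matrix.map_apply, Matrix.map_apply, Matrix.map_apply,
    e1, e2, e3, e4, sub_eq_zero] at h1
  have h2 : (((Δ.m 0 0 * Δ.m 1 1 : ℕ) : C)) ^ n = ((Δ.m 0 1 * Δ.m 1 0 : ℕ) : C) ^ n := by
    have h3 := congrArg (fun x => x ^ n) h1
    have h4 : ∀ a b u v : C, u ^ n = 1 → v ^ n = 1 → (a * u * (b * v)) ^ n = (a * b) ^ n := by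
      intro a b u v hu hv
      calc (a * u * (b * v)) ^ n = (a * b) ^ n * (u ^ n * v ^ n) := by ring
        _ = _ := by rw [hu, hv, one_mul, mul_one]
    rw [h4 _ _ _ _ (hc _) (hc _), h4 _ _ _ _ (hc _) (hc _)] at h3
    push_cast
    exact h3
  have h3 : (Δ.m 0 0 * Δ.m 1 1) ^ n = (Δ.m 0 1 * Δ.m 1 0) ^ n := by exact_mod_cast h2
  exact Δ.mne (Nat.pow_left_injective hn.ne' h3)

end Pool.Agent.H76.Q2
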