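import Mathlib
import Pool.Agent.H76.KF.Core
import Pool.Agent.H76.Q2.Fun

set_option autoImplicit false

/-!
# The local theorem at the value `1` of the parameter
-/

namespace Pool.Agent.H76.Q2

open Polynomial Filter Topology
open Pool.Agent.W289.SL Pool.Agent.W254.LF Pool.Agent.Y789.SG
open Pool.Agent.H76.KF (core)
open Pool.Agent.W542.LF (nth_root)

theorem loc2 {p : ℕ} [Fact p.Prime] {L : ℂ_[p] → ℂ_[p]} (hL : IsIwasawaLog p L) {n : ℕ}
    (hn : 0 < n) (Δ : Dat2 ℂ_[p] n) (c : Fin n → ℂ_[p]) (hc : ∀ s, c s ^ n = 1)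
    (hc0 : ∑ s, c s = 0) :
    ∀ᶠ x in 𝓝[≠] (1 : ℂ_[p]), ∀ y : Fin 2 → ℂ_[p], (∀ j, y j ^ n = (Δ.R j).eval x) →
      (Matrix.of fun i j : Fin 2 => ∑ s : Fin n, c s *
        L (y j - Δ.ζ j ^ (s : ℕ) * (Δ.β i j).eval x)).det ≠ 0 := by
  classical
  obtain ⟨E, _, _, D0, T, G⟩ := exists_germs ℂ_[p]
  have hcz : CharZero E := charZero_of_injective_algebraMap (algebraMap ℂ_[p] E).injective
  have hx0 : AnalyticAt ℂ_[p] (fun s : ℂ_[p] => 1 + s) 0 := analyticAt_const.add analyticAt_id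
  have hgan : ∀ R : ℂ_[p][X], AnalyticAt ℂ_[p] (fun s => R.eval (1 + s)) 0 := by
    intro R
    exact (AnalyticAt.aeval_polynomial hx0 R).congr (by simp [coe_aeval_eq_eval])
  have hroot := fun j => nth_root n hn (fun s => (Δ.R j).eval (1 + s)) 0 (hgan (Δ.R j)) (by
    rw [add_zero]
    exact Δ.R1 j)
  choose r hr1 hr2 hr3 using hroot
  -- the branches
  set x : Fin 2 → Fin n → ℂ_[p] → ℂ_[p] := fun j k s => Δ.ζ j ^ (k : ℕ) * r j s with hx
  have hζ0 : ∀ j (k : ℕ), Δ.ζ j ^ k ≠ 0 := fun j k => pow_ne_zero _ ((Δ.prim j).ne_zero hn.ne')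
  have hx1 : ∀ j k, AnalyticAt ℂ_[p] (x j k) 0 := fun j k => analyticAt_const.mul (hr1 j)
  have hx2 : ∀ j k, ∀ᶠ s in 𝓝 (0 : ℂ_[p]), x j k s ^ n = (Δ.R j).eval (1 + s) := by
    intro j k
    filter_upwards [hr3 j] with s hs
    rw [← hs]
    simp only [hx]
    rw [mul_pow, ← pow_mul, mul_comm (k : ℕ) n, pow_mul, (Δ.prim j).pow_eq_one, one_pow, one_mul]
  have hf : ∀ (s : Fin n) i j k, AnalyticAt ℂ_[p]
      (fun x' => x j k x' - Δ.ζ j ^ (s : ℕ) * (Δ.β i j).eval (1 + x')) 0 := fun s i j k =>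
    (hx1 j k).sub (analyticAt_const.mul (hgan _))
  have hf0 : ∀ (s : Fin n) i j k,
      x j k 0 - Δ.ζ j ^ (s : ℕ) * (Δ.β i j).eval (1 + 0) ≠ 0 := by
    intro s i j k h0
    have h1 := (hx2 j k).self_of_nhds
    rw [sub_eq_zero.1 h0, mul_pow, ← pow_mul, mul_comm (s : ℕ) n, pow_mul, (Δ.prim j).pow_eq_one,
      one_pow, one_mul, add_zero] at h1
    have h2 := congrArg (Polynomial.eval 1) (Δ.rel i j)
    rw [eval_sub, eval_pow, eval_mul, eval_C, eval_pow, eval_X, one_pow, mul_one, h1,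
      sub_self] at h2
    exact Δ.ane i j h2.symm
  set tE : E := T fun s => 1 + s with htE
  have htE' : tE = 1 + T (fun s => s) := by
    have h2 : T (fun s => 1 + s) = T (fun _ => 1) + T (fun s => s) :=
      G.add (fun _ => 1) (fun s => s) analyticAt_const analyticAt_id
    rw [htE, h2, G.c, map_one]
  have hD0t : D0 tE = 1 := by
    rw [htE', map_add, Derivation.map_one_eq_zero, zero_add, G.id_deriv]
  have hkey : ∀ k : Fin 2 → Fin n, ∀ᶠ s in 𝓝[≠] (0 : ℂ_[p]),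
      (Matrix.of fun i j : Fin 2 => ∑ q : Fin n, c q *
        L (x j (k j) s - Δ.ζ j ^ (q : ℕ) * (Δ.β i j).eval (1 + s))).det ≠ 0 := by
    intro k
    have hVE : ∀ (s : Fin n) i j, T (fun x' => x j (k j) x' -
        Δ.ζ j ^ (s : ℕ) * (Δ.β i j).eval (1 + x')) =
        T (x j (k j)) - algebraMap ℂ_[p] E (Δ.ζ j ^ (s : ℕ)) * aeval tE (Δ.β i j) := by
      intro s i j
      have hb : AnalyticAt ℂ_[p] (fun x' => -Δ.ζ j ^ (s : ℕ) * (Δ.β i j).eval (1 + x')) 0 :=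
        analyticAt_const.mul (hgan _)
      have h1 : (fun x' => x j (k j) x' - Δ.ζ j ^ (s : ℕ) * (Δ.β i j).eval (1 + x')) =
          fun x' => x j (k j) x' + -Δ.ζ j ^ (s : ℕ) * (Δ.β i j).eval (1 + x') := by
        funext x'
        ring
      have h2 := G.add (x j (k j)) (fun x' => -Δ.ζ j ^ (s : ℕ) * (Δ.β i j).eval (1 + x'))
        (hx1 j (k j)) hb
      have h3 := G.mul (fun _ => -Δ.ζ j ^ (s : ℕ)) (fun x' => (Δ.β i j).eval (1 + x'))
        analyticAt_const (hgan _)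
      rw [h1, h2, h3, G.c, ← G.eval hx0, map_neg]
      ring
    have h1 := core hL c hc0 G D0 1 (fun z => (one_mul _).symm)
      (fun s i j => T (x j (k j)) - algebraMap ℂ_[p] E (Δ.ζ j ^ (s : ℕ)) * aeval tE (Δ.β i j))
      (fun _ _ => 1) (fun _ _ => one_ne_zero) ?_ ?_
      (fun s i j x' => x j (k j) x' - Δ.ζ j ^ (s : ℕ) * (Δ.β i j).eval (1 + x'))
      (fun s i j => hf s i j (k j)) (fun s i j => hf0 s i j (k j))
      (fun s i j => by rw [one_mul, hVE])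
    · exact h1
    · intro s i j
      change T (x j (k j)) - algebraMap ℂ_[p] E (Δ.ζ j ^ (s : ℕ)) * aeval tE (Δ.β i j) ≠ 0
      rw [← hVE]
      intro h0
      exact hf0 s i j (k j) (G.zero _ (hf s i j (k j)) h0).self_of_nhds
    · intro Λ hΛ
      refine fun_det2 hn Δ c hc D0 tE hD0t (fun z hz => G.const _ hz) (fun j => T (x j (k j)))
        ?_ Λ hΛ
      intro j
      rw [← G.pow (hx1 j (k j)), ← G.eval hx0]
      exact G.congr _ _ (hx2 j (k j))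
  have h2 : ∀ᶠ s in 𝓝[≠] (0 : ℂ_[p]), ∀ k : Fin 2 → Fin n,
      (Matrix.of fun i j : Fin 2 => ∑ q : Fin n, c q *
        L (x j (k j) s - Δ.ζ j ^ (q : ℕ) * (Δ.β i j).eval (1 + s))).det ≠ 0 :=
    eventually_all.2 hkey
  have h3 : ∀ᶠ s in 𝓝[≠] (0 : ℂ_[p]), ∀ j, r j s ^ n = (Δ.R j).eval (1 + s) :=
    eventually_all.2 fun j => (hr3 j).filter_mono nhdsWithin_le_nhds
  have h4 : ∀ᶠ s in 𝓝[≠] (0 : ℂ_[p]), ∀ j, r j s ≠ 0 :=
    eventually_all.2 fun j => ((hr1 j).continuousAt.eventually_ne (hr2 j)).filter_mono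
      nhdsWithin_le_nhds
  have h5 : ∀ᶠ s in 𝓝[≠] (0 : ℂ_[p]), ∀ y : Fin 2 → ℂ_[p],
      (∀ j, y j ^ n = (Δ.R j).eval (1 + s ^ 1)) →
      (Matrix.of fun i j : Fin 2 => ∑ q : Fin n, c q *
        L (y j - Δ.ζ j ^ (q : ℕ) * (Δ.β i j).eval (1 + s ^ 1))).det ≠ 0 := by
    filter_upwards [h2, h3, h4] with s hs2 hs3 hs4 y hy
    rw [pow_one] at hy ⊢
    have : NeZero n := ⟨hn.ne'⟩
    have h6 : ∀ j, ∃ k : Fin n, y j = x j k s := by
      intro j
      have h7 : (y j / r j s) ^ n = 1 := by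
        rw [div_pow, hy, ← hs3, div_self (pow_ne_zero _ (hs4 j))]
      obtain ⟨i, hi, hi'⟩ := (Δ.prim j).eq_pow_of_pow_eq_one h7
      refine ⟨⟨i, hi⟩, ?_⟩
      simp only [hx]
      rw [hi', div_mul_cancel₀ _ (hs4 j)]
    choose k hk using h6
    have h8 := hs2 k
    simp only [← hk] at h8
    exact h8
  exact of_unif one_pos 1 h5

end Pool.Agent.H76.Q2
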