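import Mathlib
import Pool.Agent.H76.Q2.Loc
import Pool.Agent.H76.Q2.Abs
import Pool.Agent.H76.KF.Exc
import Pool.Graph.R_seed8.W289.SL.Alpha
import Pool.Graph.R_seed8.W289.SL.Emb

set_option autoImplicit false

/-!
# The `Σ`-Leopoldt statement for two units in a family with one parameter
-/

namespace Pool.Agent.H76.Q2

open NumberField Polynomial Filter Topology
open Pool.Agent.W289.SL

/-- The data over `K`: `A - B_i ^ n = κ_i X ^ m_i`, and the same for the reversed polynomials. -/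
structure KDat (K : Type) [Field K] (n : ℕ) where
  A : K[X]
  A' : K[X]
  B : Fin 2 → K[X]
  B' : Fin 2 → K[X]
  κ : Fin 2 → K
  m : Fin 2 → ℕ
  m' : Fin 2 → ℕ
  rel : ∀ i, A - B i ^ n = Polynomial.C (κ i) * X ^ (m i)
  rel' : ∀ i, A' - B' i ^ n = Polynomial.C (κ i) * X ^ (m' i)
  κne : ∀ i, κ i ≠ 0
  A0 : A.eval 0 ≠ 0
  A0' : A'.eval 0 ≠ 0
  A1 : A.eval 1 ≠ 0
  A1' : A'.eval 1 ≠ 0
  mne : m 0 * m' 1 ≠ m' 0 * m 1
  revA : ∀ {Ω : Type} [Field Ω] (φ : K →+* Ω) (u : Ω), u ≠ 0 →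
    (A'.map φ).eval u = u ^ n * (A.map φ).eval u⁻¹
  revB : ∀ {Ω : Type} [Field Ω] (φ : K →+* Ω) (u : Ω) (i : Fin 2), u ≠ 0 →
    ((B' i).map φ).eval u = u * ((B i).map φ).eval u⁻¹

lemma map_eval_zero_ne {K Ω : Type} [Field K] [Field Ω] (φ : K →+* Ω) (P : K[X]) (x : K)
    (h : P.eval x ≠ 0) : (P.map φ).eval (φ x) ≠ 0 := by
  rw [eval_map, eval₂_hom, Ne, map_eq_zero]
  exact h

/-- the local data at a pair of embeddings -/
noncomputable def KDat.dat {K : Type} [Field K] {n : ℕ} (Δ : KDat K n) {z : K}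
    (hz : IsPrimitiveRoot z n)
    {C : Type} [Field C] (s : Fin 2 → (K →+* C)) : Dat2 C n where
  R := ![Δ.A.map (s 0), Δ.A'.map (s 1)]
  β := fun i => ![(Δ.B i).map (s 0), (Δ.B' i).map (s 1)]
  a := fun i => ![s 0 (Δ.κ i), s 1 (Δ.κ i)]
  m := fun i => ![Δ.m i, Δ.m' i]
  ζ := fun j => s j z
  rel := by
    intro i j
    fin_cases j
    · have h := congrArg (Polynomial.map (s 0)) (Δ.rel i)
      simpa using h
    · have h := congrArg (Polynomial.map (s 1)) (Δ.rel' i)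
      simpa using h
  ane := by
    intro i j
    have h := Δ.κne i
    fin_cases j <;> simpa using h
  R0 := by
    intro j
    fin_cases j
    · have h := map_eval_zero_ne (s 0) Δ.A 0 Δ.A0
      rw [map_zero] at h
      exact h
    · have h := map_eval_zero_ne (s 1) Δ.A' 0 Δ.A0'
      rw [map_zero] at h
      exact h
  R1 := by
    intro j
    fin_cases j
    · have h := map_eval_zero_ne (s 0) Δ.A 1 Δ.A1
      rw [map_one] at h
      exact h
    · have h := map_eval_zero_ne (s 1) Δ.A' 1 Δ.A1'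
      rw [map_one] at h
      exact h
  prim := fun j => hz.map_of_injective (s j).injective
  mne := Δ.mne

/-- nonvanishing near `1`, for given embeddings and a given root of unity -/
theorem pair_one (p : ℕ) [Fact p.Prime] {L : ℂ_[p] → ℂ_[p]} (hL : IsIwasawaLog p L) {K : Type}
    [Field K] {n : ℕ} (hn : 0 < n) (Δ : KDat K n) {z : K} (hz : IsPrimitiveRoot z n)
    (s : Fin 2 → (K →+* ℂ_[p])) (ξ : ℂ_[p]) (hξ : ξ ^ n = 1) (hξ1 : ξ ≠ 1) :
    ∀ᶠ u in 𝓝[≠] (1 : ℂ_[p]), ∀ y : Fin 2 → ℂ_[p],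
      (∀ j, y j ^ n = (Δ.A.map (s j)).eval (![u, u⁻¹] j)) →
      (Matrix.of fun i j : Fin 2 => ∑ r : Fin n, ξ ^ (r : ℕ) *
        L (y j - s j z ^ (r : ℕ) * ((Δ.B i).map (s j)).eval (![u, u⁻¹] j))).det ≠ 0 := by
  have hsum := Pool.Agent.H76.KF.geom_zero hξ hξ1
  have h1 := loc2 hL hn (Δ.dat hz s) (fun r : Fin n => ξ ^ (r : ℕ)) (fun r => by
    rw [← pow_mul, mul_comm, pow_mul, hξ, one_pow]) hsum
  have hne1 : ∀ i j, ∀ u : ℂ_[p], u ≠ 0 → (∀ y : ℂ_[p],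
      y ^ n = (Δ.A.map (s j)).eval u → y - s j z ^ i * ((Δ.B 0).map (s j)).eval u = 0 →
        False) := by
    intro i j u hu y hy h0
    have h2 := congrArg (fun P : K[X] => (P.map (s j)).eval u) (Δ.rel 0)
    simp only [Polynomial.map_sub, Polynomial.map_pow, Polynomial.map_mul, Polynomial.map_C,
      Polynomial.map_X, eval_sub, eval_pow, eval_mul, eval_C, eval_X] at h2
    rw [← hy, sub_eq_zero.1 h0, mul_pow, ← pow_mul, mul_comm i n, pow_mul, ← map_pow,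
      hz.pow_eq_one, map_one, one_pow, one_mul, sub_self] at h2
    exact mul_ne_zero ((map_ne_zero (s j)).2 (Δ.κne 0)) (pow_ne_zero _ hu) h2.symm
  have hne2 : ∀ i j, ∀ u : ℂ_[p], u ≠ 0 → (∀ y : ℂ_[p],
      y ^ n = (Δ.A.map (s j)).eval u → y - s j z ^ i * ((Δ.B 1).map (s j)).eval u = 0 →
        False) := by
    intro i j u hu y hy h0
    have h2 := congrArg (fun P : K[X] => (P.map (s j)).eval u) (Δ.rel 1)
    simp only [Polynomial.map_sub, Polynomial.map_pow, Polynomial.map_mul, Polynomial.map_C,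
      Polynomial.map_X, eval_sub, eval_pow, eval_mul, eval_C, eval_X] at h2
    rw [← hy, sub_eq_zero.1 h0, mul_pow, ← pow_mul, mul_comm i n, pow_mul, ← map_pow,
      hz.pow_eq_one, map_one, one_pow, one_mul, sub_self] at h2
    exact mul_ne_zero ((map_ne_zero (s j)).2 (Δ.κne 1)) (pow_ne_zero _ hu) h2.symm
  have hne0 : ∀ᶠ u in 𝓝[≠] (1 : ℂ_[p]), u ≠ 0 :=
    (eventually_ne_nhds one_ne_zero).filter_mono nhdsWithin_le_nhds
  filter_upwards [h1, hne0] with u hu hu0 y hy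
  set y' : Fin 2 → ℂ_[p] := ![y 0, u * y 1] with hy'
  have h2 := hu y' (by
    intro j
    fin_cases j
    · exact hy 0
    · have h3 := hy 1
      change (u * y 1) ^ n = (Δ.A'.map (s 1)).eval u
      rw [Δ.revA (s 1) u hu0, mul_pow]
      congr 1)
  have h4 : (Matrix.of fun i j : Fin 2 => ∑ r : Fin n, ξ ^ (r : ℕ) *
        L (y' j - (Δ.dat hz s).ζ j ^ (r : ℕ) * ((Δ.dat hz s).β i j).eval u)) =
      (Matrix.of fun i j : Fin 2 => ∑ r : Fin n, ξ ^ (r : ℕ) *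
        L (y j - s j z ^ (r : ℕ) * ((Δ.B i).map (s j)).eval (![u, u⁻¹] j))) := by
    ext i j
    rw [Matrix.of_apply, Matrix.of_apply]
    fin_cases j
    · rfl
    · change ∑ r : Fin n, ξ ^ (r : ℕ) * L (u * y 1 - s 1 z ^ (r : ℕ) *
        ((Δ.B' i).map (s 1)).eval u) = ∑ r : Fin n, ξ ^ (r : ℕ) *
        L (y 1 - s 1 z ^ (r : ℕ) * ((Δ.B i).map (s 1)).eval u⁻¹)
      have h5 : ∀ r : Fin n, L (u * y 1 - s 1 z ^ (r : ℕ) * ((Δ.B' i).map (s 1)).eval u) =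
          L u + L (y 1 - s 1 z ^ (r : ℕ) * ((Δ.B i).map (s 1)).eval u⁻¹) := by
        intro r
        rw [Δ.revB (s 1) u i hu0, ← hL.mul]
        · congr 1
          ring
        · exact hu0
        · intro h0
          have h6 := hy 1
          fin_cases i
          · exact hne1 r 1 u⁻¹ (inv_ne_zero hu0) (y 1) h6 h0
          · exact hne2 r 1 u⁻¹ (inv_ne_zero hu0) (y 1) h6 h0
      rw [Finset.sum_congr rfl fun r _ => by rw [h5 r, mul_add], Finset.sum_add_distrib,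
        ← Finset.sum_mul, hsum, zero_mul, zero_add]
  rw [← h4]
  exact h2

/-- nonvanishing near `1` -/
theorem pair_all (p : ℕ) [Fact p.Prime] {L : ℂ_[p] → ℂ_[p]} (hL : IsIwasawaLog p L) {K : Type}
    [Field K] [NumberField K] {n : ℕ} (hn : 0 < n) (Δ : KDat K n) {z : K}
    (hz : IsPrimitiveRoot z n) :
    ∃ ε : ℝ, 0 < ε ∧ ∀ u : ℂ_[p], ‖u - 1‖ < ε → u ≠ 1 → ∀ (s : Fin 2 → (K →+* ℂ_[p]))
      (ξ : ℂ_[p]), ξ ^ n = 1 → ξ ≠ 1 → ∀ y : Fin 2 → ℂ_[p],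
      (∀ j, y j ^ n = (Δ.A.map (s j)).eval (![u, u⁻¹] j)) →
      (Matrix.of fun i j : Fin 2 => ∑ r : Fin n, ξ ^ (r : ℕ) *
        L (y j - s j z ^ (r : ℕ) * ((Δ.B i).map (s j)).eval (![u, u⁻¹] j))).det ≠ 0 := by
  classical
  have h1 : ∀ᶠ u in 𝓝[≠] (1 : ℂ_[p]), ∀ (q : (Fin 2 → (K →+* ℂ_[p])) ×
      {ξ : ℂ_[p] // ξ ∈ nthRootsFinset n (1 : ℂ_[p])}), (q.2 : ℂ_[p]) ≠ 1 →
      ∀ y : Fin 2 → ℂ_[p],
      (∀ j, y j ^ n = (Δ.A.map (q.1 j)).eval (![u, u⁻¹] j)) →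
      (Matrix.of fun i j : Fin 2 => ∑ r : Fin n, (q.2 : ℂ_[p]) ^ (r : ℕ) *
        L (y j - q.1 j z ^ (r : ℕ) * ((Δ.B i).map (q.1 j)).eval (![u, u⁻¹] j))).det ≠ 0 := by
    rw [eventually_all]
    rintro ⟨s, ξ, hξ⟩
    rw [mem_nthRootsFinset hn] at hξ
    by_cases hξ1 : ξ = 1
    · exact Eventually.of_forall fun u h => absurd hξ1 h
    · filter_upwards [pair_one p hL hn Δ hz s ξ hξ hξ1] with u hu _
      exact hu
  rw [eventually_nhdsWithin_iff, Metric.eventually_nhds_iff] at h1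
  obtain ⟨ε, hε, h⟩ := h1
  refine ⟨ε, hε, ?_⟩
  intro u hu hu1 s ξ hξ hξ1 y hy
  have hmem : ξ ∈ nthRootsFinset n (1 : ℂ_[p]) := (mem_nthRootsFinset hn _).2 hξ
  exact h (by rwa [dist_eq_norm]) hu1 (s, ⟨ξ, hmem⟩) hξ1 y hy

/-- units are `p`-adically close to one after a suitable power -/
lemma close (p : ℕ) [Fact p.Prime] {F : Type} [Field F] [NumberField F] (η : (𝓞 F)ˣ) {ε : ℝ}
    (hε : 0 < ε) : ∃ m : ℕ, 0 < m ∧ ∀ M : ℕ, m ∣ M → ∀ τ : F →+* ℂ_[p],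
      ‖τ (((η : 𝓞 F) : F) ^ M) - 1‖ < ε := by
  have hp1 : ‖(p : ℂ_[p])‖ < 1 := by
    have h1 : ‖((p : ℕ) : ℂ_[p])‖ = (p : ℝ)⁻¹ := norm_p
    rw [h1]
    exact inv_lt_one_of_one_lt₀ (by exact_mod_cast (Fact.out : p.Prime).one_lt)
  obtain ⟨N, hN⟩ := exists_pow_lt_of_lt_one hε hp1
  have hp0 : ((p : 𝓞 F) ^ N) ≠ 0 := pow_ne_zero _ (by
    exact_mod_cast (Fact.out : p.Prime).ne_zero)
  obtain ⟨m, hm, y, hy⟩ := exists_pow_dvd η ((p : 𝓞 F) ^ N) hp0
  refine ⟨m, Nat.pos_of_ne_zero hm, ?_⟩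
  rintro M ⟨j, rfl⟩ τ
  have h1 : ∃ y' : 𝓞 F, ((η ^ (m * j) : (𝓞 F)ˣ) : 𝓞 F) - 1 = (p : 𝓞 F) ^ N * y' := by
    have h2 : ((η ^ m : (𝓞 F)ˣ) : 𝓞 F) - 1 ∣ ((η ^ m : (𝓞 F)ˣ) : 𝓞 F) ^ j - 1 :=
      sub_one_dvd_pow_sub_one _ j
    obtain ⟨c, hc⟩ := h2
    refine ⟨-y * c, ?_⟩
    rw [pow_mul, Units.val_pow_eq_pow_val, hc]
    linear_combination (-c) * hy
  obtain ⟨y', hy'⟩ := h1
  have h3 : τ (((η : 𝓞 F) : F) ^ (m * j)) - 1 = (p : ℂ_[p]) ^ N * τ (y' : F) := by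
    have h4 := congrArg (fun x : 𝓞 F => τ (x : F)) hy'
    simpa using h4
  rw [h3, norm_mul, norm_pow]
  have h5 : ‖τ (y' : F)‖ ≤ 1 := norm_emb_le τ y'
  calc ‖(p : ℂ_[p])‖ ^ N * ‖τ (y' : F)‖ ≤ ‖(p : ℂ_[p])‖ ^ N * 1 :=
        mul_le_mul_of_nonneg_left h5 (by positivity)
    _ < ε := by rw [mul_one]; exact hN

/-- the two embeddings of a quadratic field at an element of norm one -/
lemma conj_mul (p : ℕ) [Fact p.Prime] {F : Type} [Field F] [NumberField F]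
    (hF : Module.finrank ℚ F = 2) (x : F) (hx : Algebra.norm ℚ x = 1) (τ₁ τ₂ : F →+* ℂ_[p])
    (h : τ₁ ≠ τ₂) : τ₂ x = (τ₁ x)⁻¹ := by
  classical
  have h1 := Algebra.norm_eq_prod_embeddings ℚ ℂ_[p] x
  rw [hx, map_one] at h1
  set f1 : F →ₐ[ℚ] ℂ_[p] := RingHom.equivRatAlgHom F ℂ_[p] τ₁ with hf1
  set f2 : F →ₐ[ℚ] ℂ_[p] := RingHom.equivRatAlgHom F ℂ_[p] τ₂ with hf2
  have hne : f1 ≠ f2 := fun h' => h ((RingHom.equivRatAlgHom F ℂ_[p]).injective h')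
  have hcard : Fintype.card (F →ₐ[ℚ] ℂ_[p]) = 2 := by
    rw [← Fintype.card_congr (RingHom.equivRatAlgHom F ℂ_[p]), NumberField.Embeddings.card, hF]
  have huniv : (Finset.univ : Finset (F →ₐ[ℚ] ℂ_[p])) = {f1, f2} := by
    symm
    apply Finset.eq_univ_of_card
    rw [Finset.card_pair hne, hcard]
  rw [huniv, Finset.prod_pair hne] at h1
  have h2 : τ₁ x * τ₂ x = 1 := h1.symm
  exact (eq_inv_of_mul_eq_one_right h2)

/-- **The main local-global theorem.** -/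
theorem pair_main (p : ℕ) [Fact p.Prime] {K F : Type} [Field F] [NumberField F]
    [Field K] [NumberField K] [IsTotallyComplex K] [Algebra F K]
    (hF : Module.finrank ℚ F = 2) (hFK : Module.finrank F K = 2) {n : ℕ} (hn : 1 < n)
    (Δ : KDat K n) {z : K} (hz : IsPrimitiveRoot z n) (η : (𝓞 F)ˣ) :
    ∃ m : ℕ, 0 < m ∧ ∀ M : ℕ, m ∣ M → ∀ x : F, x = ((η : 𝓞 F) : F) ^ M → x ≠ 1 →
      Algebra.norm ℚ x = 1 → ∀ α : K, α = Δ.A.eval (algebraMap F K x) →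
      Irreducible (X ^ n - C α : K[X]) →
      ∀ (H : Type) [Field H] [NumberField H] [Algebra K H] (θ : H),
        Module.finrank K H = n → θ ^ n = algebraMap K H α →
        (∀ i, ∃ ε : (𝓞 H)ˣ, ((ε : 𝓞 H) : H) =
          (θ - algebraMap K H ((Δ.B i).eval (algebraMap F K x))) /
          (θ - algebraMap K H z * algebraMap K H ((Δ.B i).eval (algebraMap F K x)))) →
        ∀ S : Set (K →+* ℂ_[p]), IsCMType p F K S →
          ∀ χ : (H ≃ₐ[K] H) →* ℂ_[p]ˣ, χ ≠ 1 → SigmaLeopoldt p K H S χ := by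
  obtain ⟨L₀, hL₀⟩ := exists_iwasawaLog p
  obtain ⟨ε, hε, hexc⟩ := pair_all p hL₀ (by omega : 0 < n) Δ hz
  obtain ⟨m, hm, hclose⟩ := close p η hε
  refine ⟨m, hm, ?_⟩
  intro M hM x hx hx1 hnorm α hα hirr H _ _ _ θ hKH hθ hunit S hS χ hχ
  have hx0 : algebraMap F K x ≠ 0 := by
    rw [Ne, map_eq_zero]
    intro h0
    rw [h0, Algebra.norm_zero] at hnorm
    exact zero_ne_one hnorm
  refine sl_abs p hn hL₀ hFK hF hz α (fun i => (Δ.B i).eval (algebraMap F K x)) ?_ ?_ hirr hKH θ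
    hθ hunit S hS χ hχ
  · intro i h
    have h2 := congrArg (Polynomial.eval (algebraMap F K x)) (Δ.rel i)
    rw [eval_sub, eval_pow, ← h, hα, sub_self, eval_mul, eval_C, eval_pow, eval_X] at h2
    exact mul_ne_zero (Δ.κne i) (pow_ne_zero _ hx0) h2.symm
  · intro s hs y hy ξ hξ hξ1
    set u : ℂ_[p] := s 0 (algebraMap F K x) with hu
    have hus : ∀ j, s j (algebraMap F K x) = ![u, u⁻¹] j := by
      intro j
      fin_cases j
      · rfl
      · exact conj_mul p hF x hnorm ((s 0).comp (algebraMap F K)) ((s 1).comp (algebraMap F K))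
          (fun h => by
            have := hs h
            exact absurd this (by decide))
    have hev : ∀ (P : K[X]) j, s j (P.eval (algebraMap F K x)) =
        (P.map (s j)).eval (![u, u⁻¹] j) := by
      intro P j
      rw [← hus, eval_map, eval₂_hom]
    have h1 := hexc u (by
      have := hclose M hM ((s 0).comp (algebraMap F K))
      rw [← hx] at this
      exact this) (by
      intro h
      apply hx1
      apply ((s 0).comp (algebraMap F K)).injective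
      rw [map_one]
      exact h) s ξ hξ hξ1 y (fun j => by rw [hy, hα, hev])
    simp only [← hev] at h1
    exact h1

end Pool.Agent.H76.Q2
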