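import Mathlib

set_option autoImplicit false

/-!
# Powers among the values of a polynomial at units of norm one in a quartic CM field
-/

namespace Pool.Agent.H76.Q2

open NumberField Polynomial

section

variable {K : Type} [Field K] [NumberField K]

lemma place_add (w : InfinitePlace K) (x y : K) : w (x + y) ≤ w x + w y := w.1.add_le x y

lemma place_sum_le (w : InfinitePlace K) {ι : Type} (s : Finset ι) (f : ι → K) :
    w (∑ i ∈ s, f i) ≤ ∑ i ∈ s, w (f i) := by
  classical
  induction s using Finset.induction_on with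
  | empty => simp
  | insert a s ha ih =>
    rw [Finset.sum_insert ha, Finset.sum_insert ha]
    exact (place_add w _ _).trans (add_le_add le_rfl ih)

lemma poly_le (E : K[X]) : ∃ C : ℝ, 0 < C ∧ ∀ w : InfinitePlace K, ∀ x : K,
    (∀ N : ℕ, E.natDegree ≤ N → 1 ≤ w x → w (E.eval x) ≤ C * w x ^ N) ∧
      (w x ≤ 1 → w (E.eval x) ≤ C) := by
  classical
  set c : InfinitePlace K → ℝ := fun w => ∑ i ∈ Finset.range (E.natDegree + 1), w (E.coeff i)
    with hc
  have hc0 : ∀ w, 0 ≤ c w := fun w => Finset.sum_nonneg fun i _ => apply_nonneg _ _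
  refine ⟨1 + ∑ w, c w, by
    have := Finset.sum_nonneg fun w (_ : w ∈ Finset.univ) => hc0 w
    linarith, ?_⟩
  intro w x
  have hcw : c w ≤ 1 + ∑ w, c w := by
    have := Finset.single_le_sum (fun w _ => hc0 w) (Finset.mem_univ w)
    linarith
  have hev : w (E.eval x) ≤ ∑ i ∈ Finset.range (E.natDegree + 1), w (E.coeff i) * w x ^ i := by
    rw [eval_eq_sum_range]
    refine (place_sum_le w _ _).trans (Finset.sum_le_sum fun i _ => ?_)
    rw [map_mul, map_pow]
  constructor
  · intro N hN hx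
    refine hev.trans ?_
    have h1 : ∑ i ∈ Finset.range (E.natDegree + 1), w (E.coeff i) * w x ^ i ≤ c w * w x ^ N := by
      rw [hc, Finset.sum_mul]
      refine Finset.sum_le_sum fun i hi => ?_
      refine mul_le_mul_of_nonneg_left ?_ (apply_nonneg _ _)
      exact pow_le_pow_right₀ hx (by rw [Finset.mem_range] at hi; omega)
    exact h1.trans (mul_le_mul_of_nonneg_right hcw (by positivity))
  · intro hx
    refine hev.trans ?_
    have h1 : ∑ i ∈ Finset.range (E.natDegree + 1), w (E.coeff i) * w x ^ i ≤ c w := by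
      refine Finset.sum_le_sum fun i hi => ?_
      have h2 : w x ^ i ≤ 1 := pow_le_one₀ (apply_nonneg _ _) hx
      calc w (E.coeff i) * w x ^ i ≤ w (E.coeff i) * 1 :=
            mul_le_mul_of_nonneg_left h2 (apply_nonneg _ _)
        _ = _ := mul_one _
    exact h1.trans hcw

lemma monic_ge (Q : K[X]) (hQ : Q.Monic) :
    ∃ R : ℝ, 1 ≤ R ∧ ∀ w : InfinitePlace K, ∀ x : K, R ≤ w x →
      w x ^ Q.natDegree / 2 ≤ w (Q.eval x) := by
  classical
  set m := Q.natDegree with hm
  rcases Nat.eq_zero_or_pos m with h0 | h0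
  · refine ⟨1, le_rfl, ?_⟩
    intro w x _
    have h1 : Q = 1 := hQ.natDegree_eq_zero.1 h0
    rw [h1, eval_one, map_one, h0, pow_zero]
    norm_num
  · set E : K[X] := Q - X ^ m with hE
    have hEd : E.natDegree ≤ m - 1 := by
      have h1 : E.degree < Q.degree := by
        apply degree_sub_lt_left
        · rw [degree_X_pow, degree_eq_natDegree hQ.ne_zero]
        · exact hQ.ne_zero
        · rw [hQ.leadingCoeff, leadingCoeff_X_pow]
      by_cases hE0 : E = 0
      · rw [hE0, natDegree_zero]; omega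
      · rw [degree_eq_natDegree hE0, degree_eq_natDegree hQ.ne_zero] at h1
        have h2 : E.natDegree < m := by exact_mod_cast h1
        omega
    obtain ⟨C, hC, h⟩ := poly_le E
    refine ⟨1 + 2 * C, by linarith, ?_⟩
    intro w x hx
    have h1 := (h w x).1 (m - 1) hEd (by linarith)
    have h2 : Q.eval x = x ^ m + E.eval x := by rw [hE, eval_sub, eval_pow, eval_X]; ring
    have h3 : w (x ^ m) ≤ w (Q.eval x) + w (E.eval x) := by
      have h4 : x ^ m = Q.eval x + -E.eval x := by rw [h2]; ring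
      calc w (x ^ m) = w (Q.eval x + -E.eval x) := by rw [← h4]
        _ ≤ w (Q.eval x) + w (-E.eval x) := place_add w _ _
        _ = _ := by
          congr 1
          have : -E.eval x = (-1) * E.eval x := by ring
          rw [this, map_mul]
          have h5 : w (-1 : K) = 1 := by
            have h6 : w (-1 : K) ^ 2 = 1 := by rw [← map_pow]; norm_num
            exact (pow_eq_one_iff_of_nonneg (apply_nonneg _ _) (by norm_num)).1 h6
          rw [h5, one_mul]
    rw [map_pow] at h3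
    have h4 : w x ^ m = w x * w x ^ (m - 1) := by
      rw [← pow_succ']
      congr 1
      omega
    have h5 : C * w x ^ (m - 1) ≤ w x ^ m / 2 := by
      rw [h4]
      have h6 : 0 ≤ w x ^ (m - 1) := by
        have : 0 ≤ w x := apply_nonneg _ _
        positivity
      nlinarith
    linarith

lemma ne_zero_of_large (E : K[X]) (hE : E ≠ 0) :
    ∃ R : ℝ, ∀ w : InfinitePlace K, ∀ x : K, R < w x → E.eval x ≠ 0 := by
  classical
  refine ⟨∑ w : InfinitePlace K, ∑ x ∈ E.roots.toFinset, w x, ?_⟩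
  intro w x hx h0
  have hmem : x ∈ E.roots.toFinset := by
    rw [Multiset.mem_toFinset, mem_roots hE]
    exact h0
  have h1 : w x ≤ ∑ x ∈ E.roots.toFinset, w x :=
    Finset.single_le_sum (f := fun x => w x) (fun x _ => apply_nonneg _ _) hmem
  have h2 : ∑ x ∈ E.roots.toFinset, w x ≤
      ∑ w : InfinitePlace K, ∑ x ∈ E.roots.toFinset, w x :=
    Finset.single_le_sum (f := fun w : InfinitePlace K => ∑ x ∈ E.roots.toFinset, w x)
      (fun w _ => Finset.sum_nonneg fun x _ => apply_nonneg _ _) (Finset.mem_univ w)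
  linarith

end

section

variable {K : Type} [Field K] [NumberField K] [IsTotallyComplex K]

lemma univ_places (h4 : Module.finrank ℚ K = 4) {w w' : InfinitePlace K} (hne : w ≠ w')
    [DecidableEq (InfinitePlace K)] : (Finset.univ : Finset (InfinitePlace K)) = {w, w'} := by
  classical
  have hcard : Fintype.card (InfinitePlace K) = 2 := by
    have h1 := InfinitePlace.card_eq_nrRealPlaces_add_nrComplexPlaces K
    have h2 := IsTotallyComplex.nrRealPlaces_eq_zero K
    have h3 := IsTotallyComplex.finrank K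
    omega
  symm
  apply Finset.eq_univ_of_card
  rw [Finset.card_pair hne, hcard]

lemma prod_places (h4 : Module.finrank ℚ K = 4) {w w' : InfinitePlace K} (hne : w ≠ w') (x : K) :
    (w x * w' x) ^ 2 = |(Algebra.norm ℚ x : ℝ)| := by
  classical
  have h1 := InfinitePlace.prod_eq_abs_norm x
  rw [univ_places h4 hne, Finset.prod_pair hne] at h1
  have h2 : ∀ v : InfinitePlace K, v.mult = 2 := by
    intro v
    have h3 : v.IsComplex := IsTotallyComplex.isComplex v
    exact InfinitePlace.mult_isComplex ⟨v, h3⟩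
  rw [h2, h2, ← mul_pow] at h1
  rw [h1]
  push_cast
  rfl

lemma one_le_prod (h4 : Module.finrank ℚ K = 4) {w w' : InfinitePlace K} (hne : w ≠ w') (a : 𝓞 K)
    (ha : a ≠ 0) : 1 ≤ w (a : K) * w' (a : K) := by
  have h1 := prod_places h4 hne (a : K)
  have h2 : (1 : ℝ) ≤ |(Algebra.norm ℚ (a : K) : ℝ)| := by
    rw [← Algebra.coe_norm_int]
    have h3 : Algebra.norm ℤ a ≠ 0 := Algebra.norm_ne_zero_iff.2 ha
    have h4 : (1 : ℤ) ≤ |Algebra.norm ℤ a| := Int.one_le_abs h3
    have h5 : (((Algebra.norm ℤ a : ℤ) : ℚ) : ℝ) = ((Algebra.norm ℤ a : ℤ) : ℝ) := by norm_cast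
    rw [h5, ← Int.cast_abs]
    exact_mod_cast h4
  rw [← h1] at h2
  have h3 : 0 ≤ w (a : K) * w' (a : K) := mul_nonneg (apply_nonneg _ _) (apply_nonneg _ _)
  by_contra hcon
  push Not at hcon
  have h4 : (w (a : K) * w' (a : K)) ^ 2 < 1 := pow_lt_one₀ h3 hcon (by norm_num)
  linarith

/-- **Runge's method.** -/
theorem runge (h4 : Module.finrank ℚ K = 4) {q : ℕ} (hq : 2 ≤ q) {ζ : K}
    (hζ : IsPrimitiveRoot ζ q) (Q E : K[X]) (hQint : ∀ x : K, IsIntegral ℤ x →
      IsIntegral ℤ (Q.eval x)) (hQ : Q.Monic)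
    (hE : E.natDegree + 1 ≤ Q.natDegree * (q - 1)) (hE0 : E ≠ 0) :
    ∃ X₀ : ℝ, ∀ (w w' : InfinitePlace K), w ≠ w' → ∀ x : K, IsIntegral ℤ x →
      X₀ < w x → w' x ≤ 1 → ∀ γ : K, IsIntegral ℤ γ → γ ^ q ≠ Q.eval x ^ q + E.eval x := by
  classical
  set m := Q.natDegree with hm
  obtain ⟨CQ, hCQ, hQb⟩ := poly_le Q
  obtain ⟨CE, hCE, hEb⟩ := poly_le E
  obtain ⟨RQ, hRQ, hQg⟩ := monic_ge Q hQ
  obtain ⟨RE, hEn⟩ := ne_zero_of_large E hE0
  -- the gap between the roots of unity
  obtain ⟨δ, hδ, hδ'⟩ : ∃ δ : ℝ, 0 < δ ∧ ∀ (w : InfinitePlace K) (i j : Fin q), i ≠ j →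
      2 * δ ≤ w (ζ ^ (i : ℕ) - ζ ^ (j : ℕ)) := by
    have hpos : ∀ (w : InfinitePlace K) (i j : Fin q), i ≠ j →
        0 < w (ζ ^ (i : ℕ) - ζ ^ (j : ℕ)) := by
      intro w i j hij
      apply InfinitePlace.pos_iff.2
      rw [sub_ne_zero]
      intro h
      exact hij (Fin.ext (hζ.pow_inj i.2 j.2 h))
    have hex : ∀ t : InfinitePlace K × Fin q × Fin q, ∃ d : ℝ, 0 < d ∧
        (t.2.1 ≠ t.2.2 → d ≤ t.1 (ζ ^ (t.2.1 : ℕ) - ζ ^ (t.2.2 : ℕ))) := by
      rintro ⟨w, i, j⟩
      by_cases hij : i = j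
      · exact ⟨1, one_pos, fun h => absurd hij h⟩
      · exact ⟨_, hpos w i j hij, fun _ => le_rfl⟩
    choose d hd hd' using hex
    have hne : (Finset.univ : Finset (InfinitePlace K × Fin q × Fin q)).Nonempty := by
      obtain ⟨w⟩ : Nonempty (InfinitePlace K) := inferInstance
      exact ⟨(w, ⟨0, by omega⟩, ⟨0, by omega⟩), Finset.mem_univ _⟩
    obtain ⟨t, -, ht⟩ := Finset.exists_min_image Finset.univ d hne
    refine ⟨d t / 2, by have := hd t; positivity, ?_⟩
    intro w i j hij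
    have h1 := ht (w, i, j) (Finset.mem_univ _)
    have h2 := hd' (w, i, j) hij
    linarith
  set C2 : ℝ := 1 + (CQ ^ q + CE) + CQ with hC2
  have hC2pos : 0 < C2 := by positivity
  set X₁ : ℝ := C2 * CE * (2 / δ) ^ (q - 1) with hX₁
  refine ⟨max (max RQ RE) X₁, ?_⟩
  intro w w' hne x hxint hx hx' γ hγint hγ
  have hxRQ : RQ < w x := lt_of_le_of_lt ((le_max_left _ _).trans (le_max_left _ _)) hx
  have hxRE : RE < w x := lt_of_le_of_lt ((le_max_right _ _).trans (le_max_left _ _)) hx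
  have hxX₁ : X₁ < w x := lt_of_le_of_lt (le_max_right _ _) hx
  have hx1 : 1 < w x := lt_of_le_of_lt hRQ hxRQ
  have hx0 : 0 < w x := one_pos.trans hx1
  set Y : K := Q.eval x with hY
  have hYint : IsIntegral ℤ Y := hQint x hxint
  have hζint : IsIntegral ℤ ζ := hζ.isIntegral (by omega)
  set a : Fin q → K := fun j => γ - ζ ^ (j : ℕ) * Y with ha
  have haint : ∀ j, IsIntegral ℤ (a j) := fun j => hγint.sub ((hζint.pow _).mul hYint)
  have hprod : ∏ j, a j = E.eval x := by
    have h1 : (X ^ q - C (1 : K)) = ∏ i ∈ Finset.range q, (X - C (ζ ^ i * 1)) :=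
      X_pow_sub_C_eq_prod hζ (by omega) (one_pow q)
    by_cases hY0 : Y = 0
    · have h2 : ∀ j, a j = γ := fun j => by simp only [ha]; rw [hY0]; ring
      rw [Finset.prod_congr rfl fun j _ => h2 j, Finset.prod_const, Finset.card_univ,
        Fintype.card_fin, hγ, hY0, zero_pow (by omega), zero_add]
    · have h2 := congrArg (Polynomial.eval (γ / Y)) h1
      rw [eval_sub, eval_pow, eval_X, eval_C, eval_prod] at h2
      simp only [eval_sub, eval_X, eval_C, mul_one] at h2
      simp only [ha]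
      rw [Fin.prod_univ_eq_prod_range (fun s => γ - ζ ^ s * Y) q]
      have h4 : ∀ s : ℕ, γ - ζ ^ s * Y = Y * (γ / Y - ζ ^ s) := by
        intro s
        field_simp
      rw [Finset.prod_congr rfl fun s _ => h4 s, Finset.prod_mul_distrib, ← h2,
        Finset.prod_const, Finset.card_range, mul_sub, ← mul_pow, mul_div_cancel₀ _ hY0, mul_one,
        hγ]
      ring
  have hEx : E.eval x ≠ 0 := hEn w x hxRE
  have ha0 : ∀ j, a j ≠ 0 := by
    intro j
    rw [← hprod] at hEx
    exact Finset.prod_ne_zero_iff.1 hEx j (Finset.mem_univ _)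
  -- the smallest factor
  have hneq : (Finset.univ : Finset (Fin q)).Nonempty := ⟨⟨0, by omega⟩, Finset.mem_univ _⟩
  obtain ⟨j₀, -, hj₀⟩ := Finset.exists_min_image Finset.univ (fun j => w (a j)) hneq
  have hwY : w x ^ m / 2 ≤ w Y := hQg w x hxRQ.le
  have hwneg : ∀ y : K, w (-y) = w y := by
    intro y
    have h5 : w (-1 : K) = 1 := by
      have h6 : w (-1 : K) ^ 2 = 1 := by rw [← map_pow]; norm_num
      exact (pow_eq_one_iff_of_nonneg (apply_nonneg _ _) (by norm_num)).1 h6
    have : -y = (-1) * y := by ring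
    rw [this, map_mul, h5, one_mul]
  have hbig : ∀ j, j ≠ j₀ → δ * w Y ≤ w (a j) := by
    intro j hj
    have h1 : w (a j - a j₀) ≤ w (a j) + w (a j₀) := by
      rw [sub_eq_add_neg]
      refine (place_add w _ _).trans ?_
      rw [hwneg]
    have h2 : a j - a j₀ = (ζ ^ (j₀ : ℕ) - ζ ^ (j : ℕ)) * Y := by simp only [ha]; ring
    rw [h2, map_mul] at h1
    have h3 := hδ' w j₀ j (Ne.symm hj)
    have h4 := hj₀ j (Finset.mem_univ _)
    have h5 : 0 ≤ w Y := apply_nonneg _ _
    nlinarith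
  have hY0 : 0 ≤ w Y := apply_nonneg _ _
  have h1 : w (a j₀) * (δ * w Y) ^ (q - 1) ≤ w (E.eval x) := by
    rw [← hprod, map_prod, ← Finset.mul_prod_erase _ _ (Finset.mem_univ j₀)]
    refine mul_le_mul_of_nonneg_left ?_ (apply_nonneg _ _)
    have h2 : (δ * w Y) ^ (q - 1) = ∏ _j ∈ Finset.univ.erase j₀, δ * w Y := by
      rw [Finset.prod_const, Finset.card_erase_of_mem (Finset.mem_univ _), Finset.card_univ,
        Fintype.card_fin]
    rw [h2]
    exact Finset.prod_le_prod (fun _ _ => by positivity) fun j hj =>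
      hbig j (Finset.ne_of_mem_erase hj)
  have h2 : w (E.eval x) ≤ CE * w x ^ (m * (q - 1) - 1) :=
    (hEb w x).1 _ (by omega) hx1.le
  -- the other place
  have h3 : w' (a j₀) ≤ C2 := by
    have h5 : w' Y ≤ CQ := (hQb w' x).2 hx'
    have h6 : w' (E.eval x) ≤ CE := (hEb w' x).2 hx'
    have h7 : w' γ ^ q ≤ CQ ^ q + CE := by
      rw [← map_pow, hγ]
      refine (place_add w' _ _).trans (add_le_add ?_ h6)
      rw [map_pow]
      exact pow_le_pow_left₀ (apply_nonneg _ _) h5 _
    have h8 : w' γ ≤ 1 + (CQ ^ q + CE) := by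
      by_contra hcon
      push Not at hcon
      have h9 : 1 ≤ w' γ := by
        have : 0 ≤ CQ ^ q + CE := by positivity
        linarith
      have h10 : w' γ ≤ w' γ ^ q := le_self_pow₀ h9 (by omega)
      linarith
    have h9 : w' ζ = 1 := by
      have h10 : w' ζ ^ q = 1 := by rw [← map_pow, hζ.pow_eq_one, map_one]
      exact (pow_eq_one_iff_of_nonneg (apply_nonneg _ _) (by omega)).1 h10
    have h10 : w' (a j₀) ≤ w' γ + w' Y := by
      have h11 : a j₀ = γ + (-1) * ζ ^ (j₀ : ℕ) * Y := by simp only [ha]; ring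
      rw [h11]
      refine (place_add w' _ _).trans (add_le_add le_rfl ?_)
      have h12 : w' (-1 : K) = 1 := by
        have h6 : w' (-1 : K) ^ 2 = 1 := by rw [← map_pow]; norm_num
        exact (pow_eq_one_iff_of_nonneg (apply_nonneg _ _) (by norm_num)).1 h6
      rw [map_mul, map_mul, map_pow, h9, h12]
      simp
    rw [hC2]
    linarith
  have h5 : 1 ≤ w (a j₀) * w' (a j₀) := one_le_prod h4 hne ⟨a j₀, haint j₀⟩ (by
    intro h
    exact ha0 j₀ (congrArg (fun y : 𝓞 K => (y : K)) h))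
  have hwa : 0 ≤ w (a j₀) := apply_nonneg _ _
  have h6 : (δ * w Y) ^ (q - 1) ≤ C2 * (CE * w x ^ (m * (q - 1) - 1)) := by
    have h7 : 0 ≤ (δ * w Y) ^ (q - 1) := by positivity
    calc (δ * w Y) ^ (q - 1) = 1 * (δ * w Y) ^ (q - 1) := (one_mul _).symm
      _ ≤ (w (a j₀) * w' (a j₀)) * (δ * w Y) ^ (q - 1) := mul_le_mul_of_nonneg_right h5 h7
      _ ≤ (w (a j₀) * C2) * (δ * w Y) ^ (q - 1) :=
          mul_le_mul_of_nonneg_right (mul_le_mul_of_nonneg_left h3 hwa) h7
      _ = C2 * (w (a j₀) * (δ * w Y) ^ (q - 1)) := by ring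
      _ ≤ C2 * (CE * w x ^ (m * (q - 1) - 1)) :=
          mul_le_mul_of_nonneg_left (h1.trans h2) hC2pos.le
  have h7 : (δ * (w x ^ m / 2)) ^ (q - 1) ≤ (δ * w Y) ^ (q - 1) :=
    pow_le_pow_left₀ (by positivity) (mul_le_mul_of_nonneg_left hwY hδ.le) _
  have h8 : (δ * (w x ^ m / 2)) ^ (q - 1) = (δ / 2) ^ (q - 1) * (w x * w x ^ (m * (q - 1) - 1)) := by
    have h9 : w x * w x ^ (m * (q - 1) - 1) = w x ^ (m * (q - 1)) := by
      rw [← pow_succ']
      congr 1
      omega
    rw [h9, pow_mul, ← mul_pow]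
    congr 1
    ring
  have h9 : 0 < w x ^ (m * (q - 1) - 1) := by positivity
  have h10 : (δ / 2) ^ (q - 1) * w x ≤ C2 * CE := by
    have h11 : ((δ / 2) ^ (q - 1) * w x) * w x ^ (m * (q - 1) - 1) ≤
        (C2 * CE) * w x ^ (m * (q - 1) - 1) := by
      calc _ = (δ / 2) ^ (q - 1) * (w x * w x ^ (m * (q - 1) - 1)) := by ring
        _ ≤ C2 * (CE * w x ^ (m * (q - 1) - 1)) := by rw [← h8]; exact h7.trans h6
        _ = _ := by ring
    exact le_of_mul_le_mul_right h11 h9
  have h11 : w x ≤ X₁ := by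
    rw [hX₁]
    have h12 : (δ / 2) ^ (q - 1) * (2 / δ) ^ (q - 1) = 1 := by
      rw [← mul_pow]
      have : δ / 2 * (2 / δ) = 1 := by field_simp
      rw [this, one_pow]
    calc w x = ((δ / 2) ^ (q - 1) * w x) * (2 / δ) ^ (q - 1) := by
          rw [mul_right_comm, h12, one_mul]
      _ ≤ (C2 * CE) * (2 / δ) ^ (q - 1) := mul_le_mul_of_nonneg_right h10 (by positivity)
  linarith

end

end Pool.Agent.H76.Q2
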