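import Mathlib
import Pool.Agent.H76.Q2.Runge

set_option autoImplicit false

/-!
# Units of a real quadratic field at the places of a quartic CM field
-/

namespace Pool.Agent.H76.Q2

open NumberField Polynomial

lemma norm_even {F : Type} [Field F] [NumberField F] (η : (𝓞 F)ˣ) {M : ℕ} (hM : 2 ∣ M) :
    Algebra.norm ℚ (((η : 𝓞 F) : F) ^ M) = 1 := by
  obtain ⟨j, rfl⟩ := hM
  have h1 : IsUnit (Algebra.norm ℤ (η : 𝓞 F)) := η.isUnit.map (Algebra.norm ℤ)
  have h2 : (Algebra.norm ℤ (η : 𝓞 F)) ^ 2 = 1 := by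
    rcases Int.isUnit_iff.1 h1 with h | h <;> rw [h] <;> norm_num
  rw [map_pow, ← Algebra.coe_norm_int, pow_mul, ← Int.cast_pow, h2, Int.cast_one, one_pow]

/-- a unit of infinite order is large at one place and small at the other place -/
theorem places_unit {F K : Type} [Field F] [NumberField F] [Field K] [NumberField K]
    [IsTotallyComplex K] [Algebra F K] (h4 : Module.finrank ℚ K = 4) (η : (𝓞 F)ˣ)
    (hη : ∀ k : ℕ, 0 < k → η ^ k ≠ 1) :
    ∃ w w' : InfinitePlace K, w ≠ w' ∧ 1 < w (algebraMap F K (η : 𝓞 F)) ∧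
      w' (algebraMap F K (η : 𝓞 F)) ≤ 1 := by
  classical
  have hcard : Fintype.card (InfinitePlace K) = 2 := by
    have h1 := InfinitePlace.card_eq_nrRealPlaces_add_nrComplexPlaces K
    have h2 := IsTotallyComplex.nrRealPlaces_eq_zero K
    have h3 := IsTotallyComplex.finrank K
    omega
  obtain ⟨w, w', hne⟩ := Fintype.exists_pair_of_one_lt_card (by rw [hcard]; norm_num :
    1 < Fintype.card (InfinitePlace K))
  set y : K := algebraMap F K (η : 𝓞 F) with hy
  set yi : K := algebraMap F K ((η⁻¹ : (𝓞 F)ˣ) : 𝓞 F) with hyi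
  have hyy : y * yi = 1 := by
    have h1 : ((η : 𝓞 F) : F) * (((η⁻¹ : (𝓞 F)ˣ) : 𝓞 F) : F) = 1 := by
      rw [← map_mul, Units.mul_inv, map_one]
    have h2 := congrArg (algebraMap F K) h1
    rw [map_mul, map_one] at h2
    exact h2
  have hy0 : y ≠ 0 := left_ne_zero_of_mul_eq_one hyy
  have hyi0 : yi ≠ 0 := right_ne_zero_of_mul_eq_one hyy
  have hyint : IsIntegral ℤ y := (RingOfIntegers.isIntegral_coe _).map (algebraMap F K).toIntAlgHom
  have hyiint : IsIntegral ℤ yi :=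
    (RingOfIntegers.isIntegral_coe _).map (algebraMap F K).toIntAlgHom
  have h1 : 1 ≤ w y * w' y := one_le_prod h4 hne ⟨y, hyint⟩ (by
    intro h
    exact hy0 (congrArg (fun y : 𝓞 K => (y : K)) h))
  have h2 : 1 ≤ w yi * w' yi := one_le_prod h4 hne ⟨yi, hyiint⟩ (by
    intro h
    exact hyi0 (congrArg (fun y : 𝓞 K => (y : K)) h))
  have h3 : w y * w yi = 1 := by rw [← map_mul, hyy, map_one]
  have h3' : w' y * w' yi = 1 := by rw [← map_mul, hyy, map_one]
  have hwy : 0 < w y := InfinitePlace.pos_iff.2 hy0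
  have hwy' : 0 < w' y := InfinitePlace.pos_iff.2 hy0
  have hwyi : 0 < w yi := InfinitePlace.pos_iff.2 hyi0
  have hwyi' : 0 < w' yi := InfinitePlace.pos_iff.2 hyi0
  have h5 : w y * w' y = 1 := by
    have h6 : (w y * w' y) * (w yi * w' yi) = 1 := by
      calc _ = (w y * w yi) * (w' y * w' yi) := by ring
        _ = 1 := by rw [h3, h3', one_mul]
    have h7 : w y * w' y ≤ 1 := by nlinarith
    linarith
  have hw1 : w y ≠ 1 := by
    intro h6
    have h7 : w' y = 1 := by rw [h6, one_mul] at h5; exact h5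
    have hall : ∀ φ : K →+* ℂ, ‖φ y‖ = 1 := by
      intro φ
      have h8 : InfinitePlace.mk φ ∈ (Finset.univ : Finset (InfinitePlace K)) :=
        Finset.mem_univ _
      rw [univ_places h4 hne, Finset.mem_insert, Finset.mem_singleton] at h8
      rw [← InfinitePlace.apply]
      rcases h8 with h8 | h8 <;> rw [h8] <;> assumption
    obtain ⟨k, hk, hk'⟩ := NumberField.Embeddings.pow_eq_one_of_norm_eq_one K ℂ hyint hall
    apply hη k hk
    apply Units.ext
    apply RingOfIntegers.ext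
    apply (algebraMap F K).injective
    have h9 : (((η ^ k : (𝓞 F)ˣ) : 𝓞 F) : F) = ((η : 𝓞 F) : F) ^ k := by
      rw [Units.val_pow_eq_pow_val]
      exact map_pow (algebraMap (𝓞 F) F) _ _
    rw [h9, map_pow, hk']
    have h10 : (((1 : (𝓞 F)ˣ) : 𝓞 F) : F) = 1 := map_one (algebraMap (𝓞 F) F)
    rw [h10, map_one]
  rcases lt_or_gt_of_ne hw1 with h6 | h6
  · refine ⟨w', w, hne.symm, ?_, h6.le⟩
    by_contra hcon
    push Not at hcon
    nlinarith
  · refine ⟨w, w', hne, h6, ?_⟩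
    by_contra hcon
    push Not at hcon
    nlinarith

/-- `x = η ^ M` with `M` large, even -/
theorem places_pow {F K : Type} [Field F] [NumberField F] [Field K] [NumberField K]
    [IsTotallyComplex K] [Algebra F K] (h4 : Module.finrank ℚ K = 4) (η : (𝓞 F)ˣ)
    (hη : ∀ k : ℕ, 0 < k → η ^ k ≠ 1) (X₀ : ℝ) :
    ∃ N : ℕ, ∀ M : ℕ, N ≤ M → ∃ w w' : InfinitePlace K, w ≠ w' ∧
      X₀ < w (algebraMap F K (((η : 𝓞 F) : F) ^ M)) ∧
      w' (algebraMap F K (((η : 𝓞 F) : F) ^ M)) ≤ 1 := by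
  obtain ⟨w, w', hne, h1, h2⟩ := places_unit (K := K) h4 η hη
  obtain ⟨N, hN⟩ := pow_unbounded_of_one_lt X₀ h1
  refine ⟨N, fun M hM => ⟨w, w', hne, ?_, ?_⟩⟩
  · rw [map_pow, map_pow]
    exact lt_of_lt_of_le hN (pow_le_pow_right₀ h1.le hM)
  · rw [map_pow, map_pow]
    exact pow_le_one₀ (apply_nonneg _ _) h2

end Pool.Agent.H76.Q2
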