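import Mathlib
import Pool.Agent.H76.Q2.Pair
import Pool.Agent.H76.Q2.Units
import Pool.Agent.H76.KF.NonPow
import Pool.Graph.R_seed8.Y789.SG.NonSqC

set_option autoImplicit false

/-!
# The family `α = x³ - 3 ω² x² + 3 x - 1`
-/

namespace Pool.Agent.H76.Q2

open NumberField Polynomial
open Pool.Agent.W289.SL
open Pool.Agent.H76.KF (irr_of_prime)
open Pool.Agent.Y789.SG (conj_comp)

section

variable {K : Type} [Field K] [CharZero K] {ω : K}

lemma omega_ne (hω : ω ^ 2 + ω + 1 = 0) : ω ≠ 0 ∧ 1 - ω ≠ 0 ∧ 1 - ω ^ 2 ≠ 0 ∧ ω - ω ^ 2 ≠ 0 := by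
  have h1 : ω ≠ 0 := by
    rintro rfl
    norm_num at hω
  have h2 : 1 - ω ≠ 0 := by
    intro h
    have h3 : ω = 1 := (sub_eq_zero.1 h).symm
    rw [h3] at hω
    norm_num at hω
  have h3 : 1 - ω ^ 2 ≠ 0 := by
    have h4 : 1 - ω ^ 2 = -ω ^ 2 * (1 - ω) := by
      linear_combination ((ω : K) - 1) * (-hω) + 0 * hω
    rw [h4]
    exact mul_ne_zero (neg_ne_zero.2 (pow_ne_zero _ h1)) h2
  refine ⟨h1, h2, h3, ?_⟩
  have h4 : ω - ω ^ 2 = ω * (1 - ω) := by ring
  rw [h4]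
  exact mul_ne_zero h1 h2

/-- `A = X³ - 3 ω² X² + 3 X - 1` -/
noncomputable def cA (ω : K) : K[X] := X ^ 3 - C (3 * ω ^ 2) * X ^ 2 + C 3 * X - 1

/-- the data -/
noncomputable def cubicDat (hω : ω ^ 2 + ω + 1 = 0) : KDat K 3 where
  A := cA ω
  A' := 1 - C (3 * ω ^ 2) * X + C 3 * X ^ 2 - X ^ 3
  B := ![X - 1, X - C (ω ^ 2)]
  B' := ![1 - X, 1 - C (ω ^ 2) * X]
  κ := ![3 * (1 - ω ^ 2), 3 * (1 - ω)]
  m := ![2, 1]
  m' := ![1, 2]
  rel := by
    have hC : (C ω : K[X]) ^ 2 + C ω + 1 = 0 := by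
      rw [← C_pow, ← C_add, ← C_1, ← C_add, hω, C_0]
    intro i
    fin_cases i
    · change cA ω - (X - 1) ^ 3 = C (3 * (1 - ω ^ 2)) * X ^ 2
      unfold cA
      simp only [C_mul, C_sub, C_1, C_pow]
      have h3 : (C (3 : K) : K[X]) = 3 := rfl
      rw [h3]
      ring
    · change cA ω - (X - C (ω ^ 2)) ^ 3 = C (3 * (1 - ω)) * X ^ 1
      unfold cA
      simp only [C_mul, C_sub, C_1, C_pow]
      have h3 : (C (3 : K) : K[X]) = 3 := rfl
      rw [h3]
      linear_combination (-3 * X * (C ω ^ 2 - C ω) + (C ω ^ 4 - C ω ^ 3 + C ω - 1)) * hC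
  rel' := by
    have hC : (C ω : K[X]) ^ 2 + C ω + 1 = 0 := by
      rw [← C_pow, ← C_add, ← C_1, ← C_add, hω, C_0]
    intro i
    fin_cases i
    · change (1 - C (3 * ω ^ 2) * X + C 3 * X ^ 2 - X ^ 3) - (1 - X) ^ 3 =
        C (3 * (1 - ω ^ 2)) * X ^ 1
      simp only [C_mul, C_sub, C_1, C_pow]
      have h3 : (C (3 : K) : K[X]) = 3 := rfl
      rw [h3]
      ring
    · change (1 - C (3 * ω ^ 2) * X + C 3 * X ^ 2 - X ^ 3) - (1 - C (ω ^ 2) * X) ^ 3 =
        C (3 * (1 - ω)) * X ^ 2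
      simp only [C_mul, C_sub, C_1, C_pow]
      have h3 : (C (3 : K) : K[X]) = 3 := rfl
      rw [h3]
      linear_combination (-3 * X ^ 2 * (C ω ^ 2 - C ω) +
        X ^ 3 * (C ω ^ 4 - C ω ^ 3 + C ω - 1)) * hC
  κne := by
    obtain ⟨h1, h2, h3, h4⟩ := omega_ne hω
    intro i
    fin_cases i
    · exact mul_ne_zero (by norm_num) h3
    · exact mul_ne_zero (by norm_num) h2
  A0 := by
    unfold cA
    simp
  A0' := by simp
  A1 := by
    obtain ⟨h1, h2, h3, h4⟩ := omega_ne hω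
    have h5 : (cA ω).eval 1 = 3 * (1 - ω ^ 2) := by
      unfold cA
      simp only [eval_sub, eval_add, eval_mul, eval_pow, eval_X, eval_C, eval_one]
      ring
    rw [h5]
    exact mul_ne_zero (by norm_num) h3
  A1' := by
    obtain ⟨h1, h2, h3, h4⟩ := omega_ne hω
    have h5 : ((1 - C (3 * ω ^ 2) * X + C 3 * X ^ 2 - X ^ 3) : K[X]).eval 1 =
        3 * (1 - ω ^ 2) := by
      simp only [eval_sub, eval_add, eval_mul, eval_pow, eval_X, eval_C, eval_one]
      ring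
    rw [h5]
    exact mul_ne_zero (by norm_num) h3
  mne := by
    change 2 * 2 ≠ 1 * 1
    norm_num
  revA := by
    intro Ω _ φ u hu
    unfold cA
    simp only [Polynomial.map_add, Polynomial.map_sub, Polynomial.map_mul, Polynomial.map_one,
      Polynomial.map_pow, Polynomial.map_X, Polynomial.map_C, eval_add, eval_sub, eval_mul,
      eval_one, eval_pow, eval_X, eval_C]
    field_simp
  revB := by
    intro Ω _ φ u i hu
    fin_cases i
    · change ((1 - X : K[X]).map φ).eval u = u * ((X - 1 : K[X]).map φ).eval u⁻¹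
      simp only [Polynomial.map_sub, Polynomial.map_one, Polynomial.map_X, eval_sub, eval_one,
        eval_X]
      field_simp
    · change ((1 - C (ω ^ 2) * X : K[X]).map φ).eval u =
        u * ((X - C (ω ^ 2) : K[X]).map φ).eval u⁻¹
      simp only [Polynomial.map_sub, Polynomial.map_mul, Polynomial.map_one, Polynomial.map_X,
        Polynomial.map_C, eval_sub, eval_mul, eval_one, eval_X, eval_C]
      field_simp

/-- the units `(θ - b) / √-3` -/
lemma unit_lam {H : Type} [Field H] [NumberField H] {w θ b v : H} (hw : w ^ 2 + w + 1 = 0)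
    (hθint : IsIntegral ℤ θ) (hb : IsIntegral ℤ b) (hv : IsIntegral ℤ v) (hv' : IsIntegral ℤ v⁻¹)
    (hv0 : v ≠ 0) (h : θ ^ 3 = b ^ 3 + (w - w ^ 2) ^ 3 * v) :
    ∃ ε : (𝓞 H)ˣ, ((ε : 𝓞 H) : H) = (θ - b) / (w - w ^ 2) := by
  obtain ⟨h1, h2, h3, h4⟩ := omega_ne hw
  have hwint : IsIntegral ℤ w := by
    refine IsIntegral.of_pow (n := 3) (by norm_num) ?_
    have : w ^ 3 = 1 := by linear_combination (w - 1) * hw
    rw [this]
    exact isIntegral_one
  set l : H := w - w ^ 2 with hl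
  have hlint : IsIntegral ℤ l := hwint.sub (hwint.pow 2)
  have hl2 : l ^ 2 = -3 := by
    rw [hl]
    linear_combination (w ^ 2 - 3 * w + 3) * hw
  set x : H := (θ - b) / l with hx
  have hxl : l * x = θ - b := by rw [hx, mul_div_cancel₀ _ h4]
  have heq : x * (x ^ 2 - l * b * x - b ^ 2) = v := by
    have h5 : θ = l * x + b := by rw [hxl]; ring
    rw [h5] at h
    have h6 : l ^ 3 * (x * (x ^ 2 - l * b * x - b ^ 2)) = l ^ 3 * v := by
      linear_combination h - (l ^ 2 * b * x ^ 2 + l * b ^ 2 * x) * hl2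
    exact mul_left_cancel₀ (pow_ne_zero 3 h4) h6
  have hxint : IsIntegral ℤ x := by
    have h7 : x ^ 3 + (-(l * b)) * x ^ 2 + (-b ^ 2) * x + (-v) = 0 := by
      linear_combination heq
    have hR : ∀ y : H, IsIntegral ℤ y → ∃ r : integralClosure ℤ H, (r : H) = y :=
      fun y hy => ⟨⟨y, hy⟩, rfl⟩
    obtain ⟨r1, hr1⟩ := hR _ (hlint.mul hb).neg
    obtain ⟨r2, hr2⟩ := hR _ (hb.pow 2).neg
    obtain ⟨r3, hr3⟩ := hR _ hv.neg
    have h8 : IsIntegral (integralClosure ℤ H) x := by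
      refine ⟨X ^ 3 + (C r1 * X ^ 2 + C r2 * X + C r3), ?_, ?_⟩
      · apply monic_X_pow_add
        compute_degree
        norm_num
      · rw [eval₂_add, eval₂_add, eval₂_add, eval₂_mul, eval₂_mul, eval₂_pow, eval₂_pow, eval₂_X,
          eval₂_C, eval₂_C, eval₂_C]
        have e1 : algebraMap (integralClosure ℤ H) H r1 = -(l * b) := hr1
        have e2 : algebraMap (integralClosure ℤ H) H r2 = -b ^ 2 := hr2
        have e3 : algebraMap (integralClosure ℤ H) H r3 = -v := hr3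
        rw [e1, e2, e3]
        linear_combination h7
    exact isIntegral_trans (R := ℤ) (A := integralClosure ℤ H) x h8
  have hyint : IsIntegral ℤ (x ^ 2 - l * b * x - b ^ 2) :=
    ((hxint.pow 2).sub ((hlint.mul hb).mul hxint)).sub (hb.pow 2)
  have hinv : x * ((x ^ 2 - l * b * x - b ^ 2) * v⁻¹) = 1 := by
    rw [← mul_assoc, heq, mul_inv_cancel₀ hv0]
  refine ⟨⟨⟨x, hxint⟩, ⟨_, hyint.mul hv'⟩, ?_, ?_⟩, rfl⟩
  · apply RingOfIntegers.ext
    exact hinv
  · apply RingOfIntegers.ext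
    change (x ^ 2 - l * b * x - b ^ 2) * v⁻¹ * x = 1
    rw [mul_comm]
    exact hinv

end

end Pool.Agent.H76.Q2
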