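import Mathlib
import Pool.Agent.H76.Q2.Cubic

set_option autoImplicit false

/-!
# The family `α = x³ - 3 ω² x² + 3 x - 1`: the main theorem
-/

namespace Pool.Agent.H76.Q2

open NumberField Polynomial
open Pool.Agent.W289.SL
open Pool.Agent.H76.KF (irr_of_prime)
open Pool.Agent.Y789.SG (conj_comp)

lemma prim_three {K : Type} [Field K] [CharZero K] {ω : K} (hω : ω ^ 2 + ω + 1 = 0) :
    IsPrimitiveRoot ω 3 := by
  obtain ⟨h1, h2, h3, h4⟩ := omega_ne hω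
  have h5 : ω ^ 3 = 1 := by linear_combination (ω - 1) * hω
  have : Fact (Nat.Prime 3) := ⟨Nat.prime_three⟩
  have h6 : ω ≠ 1 := fun h => h2 (by rw [h, sub_self])
  have h7 : orderOf ω = 3 := orderOf_eq_prime h5 h6
  rw [← h7]
  exact IsPrimitiveRoot.orderOf ω

section

variable {K : Type} [Field K] [NumberField K] [IsTotallyComplex K]

/-- none of the three elements is a cube -/
lemma cubes_no (h4 : Module.finrank ℚ K = 4) {ω : K} (hω : ω ^ 2 + ω + 1 = 0) :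
    ∃ X₀ : ℝ, ∀ (w w' : InfinitePlace K), w ≠ w' → ∀ x : K, IsIntegral ℤ x →
      X₀ < w x → w' x ≤ 1 → ∀ γ : K,
      γ ^ 3 ≠ x ^ 3 - 3 * ω ^ 2 * x ^ 2 + 3 * x - 1 ∧
      γ ^ 3 ≠ (x ^ 3 - 3 * ω ^ 2 * x ^ 2 + 3 * x - 1) * (x ^ 3 - 3 * ω * x ^ 2 + 3 * x - 1) ∧
      γ ^ 3 ≠ (x ^ 3 - 3 * ω ^ 2 * x ^ 2 + 3 * x - 1) ^ 2 *
        (x ^ 3 - 3 * ω * x ^ 2 + 3 * x - 1) := by
  obtain ⟨g1, g2, g3, g4⟩ := omega_ne hω
  have hζ := prim_three hω
  have hωint : IsIntegral ℤ ω := hζ.isIntegral (by norm_num)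
  have hn : ∀ m : ℕ, IsIntegral ℤ (m : K) := fun m => by
    have h := isIntegral_algebraMap (R := ℤ) (A := K) (x := (m : ℤ))
    simpa using h
  obtain ⟨X₁, hX₁⟩ := runge h4 (le_refl 2 |>.trans (by norm_num) : 2 ≤ 3) hζ
    (X + C (-ω ^ 2)) (C (3 * (1 - ω)) * X)
    (fun x hx => by
      rw [eval_add, eval_X, eval_C]
      exact hx.add (hωint.pow 2).neg)
    (monic_X_add_C _)
    (by
      have e1 : (X + C (-ω ^ 2) : K[X]).natDegree = 1 := natDegree_X_add_C _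
      have e2 : (C (3 * (1 - ω)) * X : K[X]).natDegree ≤ 1 := by compute_degree
      omega)
    (by
      intro h
      have := congrArg (Polynomial.eval 1) h
      rw [eval_mul, eval_C, eval_X, eval_zero, mul_one] at this
      exact mul_ne_zero (by norm_num) g2 this)
  obtain ⟨X₂, hX₂⟩ := runge h4 (le_refl 2 |>.trans (by norm_num) : 2 ≤ 3) hζ
    (X ^ 2 + (X + C 4)) (C (-18) * X ^ 3 + C (-54) * X ^ 2 + C (-54) * X + C (-63))
    (fun x hx => by
      rw [eval_add, eval_pow, eval_add, eval_X, eval_C]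
      exact (hx.pow 2).add (hx.add (by exact_mod_cast hn 4)))
    (monic_X_pow_add (by compute_degree!))
    (by
      have e1 : (X ^ 2 + (X + C 4) : K[X]).natDegree = 2 := by compute_degree!
      have e2 : (C (-18) * X ^ 3 + C (-54) * X ^ 2 + C (-54) * X + C (-63) : K[X]).natDegree ≤ 3 :=
        by compute_degree
      omega)
    (by
      intro h
      have := congrArg (Polynomial.eval 0) h
      simp only [eval_add, eval_mul, eval_C, eval_X, eval_pow, eval_zero] at this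
      norm_num at this)
  obtain ⟨X₃, hX₃⟩ := runge h4 (le_refl 2 |>.trans (by norm_num) : 2 ≤ 3) hζ
    (X ^ 3 + (C (2 + ω) * X ^ 2 + C 6 * X + C (ω - 5)))
    (C (-27 - 9 * ω) * X ^ 5 + C (36 - 81 * ω) * X ^ 4 + C (102 + 159 * ω) * X ^ 3 +
      C (342 - 144 * ω) * X ^ 2 + C (-423 + 198 * ω) * X + C (108 - 90 * ω))
    (fun x hx => by
      simp only [eval_add, eval_mul, eval_pow, eval_X, eval_C]
      have e1 : IsIntegral ℤ (2 + ω) := (by exact_mod_cast hn 2 : IsIntegral ℤ (2 : K)).add hωint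
      have e2 : IsIntegral ℤ (ω - 5) := hωint.sub (by exact_mod_cast hn 5)
      have e3 : IsIntegral ℤ (6 : K) := by exact_mod_cast hn 6
      exact (hx.pow 3).add (((e1.mul (hx.pow 2)).add (e3.mul hx)).add e2))
    (monic_X_pow_add (by compute_degree!))
    (by
      have e1 : (X ^ 3 + (C (2 + ω) * X ^ 2 + C 6 * X + C (ω - 5)) : K[X]).natDegree = 3 := by
        compute_degree!
      have e2 : (C (-27 - 9 * ω) * X ^ 5 + C (36 - 81 * ω) * X ^ 4 + C (102 + 159 * ω) * X ^ 3 +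
        C (342 - 144 * ω) * X ^ 2 + C (-423 + 198 * ω) * X +
          C (108 - 90 * ω) : K[X]).natDegree ≤ 5 := by compute_degree
      omega)
    (by
      intro h
      have := congrArg (Polynomial.eval 0) h
      simp only [eval_add, eval_mul, eval_C, eval_X, eval_pow, eval_zero] at this
      have h1 : 108 - 90 * ω = 0 := by linear_combination this
      have h2 : (29484 : K) = 0 := by
        linear_combination (90 * ω + 198) * h1 + 8100 * hω
      norm_num at h2)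
  refine ⟨max X₁ (max X₂ X₃), ?_⟩
  intro w w' hne x hx h5 h6 γ
  have h51 : X₁ < w x := lt_of_le_of_lt (le_max_left _ _) h5
  have h52 : X₂ < w x := lt_of_le_of_lt ((le_max_left _ _).trans (le_max_right _ _)) h5
  have h53 : X₃ < w x := lt_of_le_of_lt ((le_max_right _ _).trans (le_max_right _ _)) h5
  have i3 : IsIntegral ℤ (3 : K) := by exact_mod_cast hn 3
  have iA : IsIntegral ℤ (x ^ 3 - 3 * ω ^ 2 * x ^ 2 + 3 * x - 1) :=
    (((hx.pow 3).sub ((i3.mul (hωint.pow 2)).mul (hx.pow 2))).add (i3.mul hx)).sub isIntegral_one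
  have iB : IsIntegral ℤ (x ^ 3 - 3 * ω * x ^ 2 + 3 * x - 1) :=
    (((hx.pow 3).sub ((i3.mul hωint).mul (hx.pow 2))).add (i3.mul hx)).sub isIntegral_one
  have hω3 : ω ^ 3 = 1 := by linear_combination (ω - 1) * hω
  refine ⟨?_, ?_, ?_⟩
  · intro hγ
    refine hX₁ w w' hne x hx h51 h6 γ ?_ ?_
    · refine IsIntegral.of_pow (n := 3) (by norm_num) ?_
      rw [hγ]
      exact iA
    · rw [hγ]
      simp only [eval_add, eval_mul, eval_X, eval_C]
      linear_combination (-3 * x * (ω ^ 2 - ω) + (ω ^ 3 + 1) * (ω - 1)) * hω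
  · intro hγ
    refine hX₂ w w' hne x hx h52 h6 γ ?_ ?_
    · refine IsIntegral.of_pow (n := 3) (by norm_num) ?_
      rw [hγ]
      exact iA.mul iB
    · rw [hγ]
      simp only [eval_add, eval_mul, eval_pow, eval_X, eval_C]
      linear_combination (-3 * x ^ 2 * (x ^ 3 + 3 * x - 1) + 9 * x ^ 4 * (ω - 1)) * hω
  · intro hγ
    refine hX₃ w w' hne x hx h53 h6 γ ?_ ?_
    · refine IsIntegral.of_pow (n := 3) (by norm_num) ?_
      rw [hγ]
      exact (iA.pow 2).mul iB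
    · rw [hγ]
      simp only [eval_add, eval_mul, eval_pow, eval_X, eval_C]
      linear_combination ((-6) * x ^ 8 + 9 * x ^ 7 * ω ^ 2 + 9 * x ^ 7 * ω - 21 * x ^ 7 -
        27 * x ^ 6 * ω ^ 3 + 27 * x ^ 6 * ω ^ 2 - x ^ 6 * ω - 68 * x ^ 6 + 27 * x ^ 5 * ω ^ 2 +
        27 * x ^ 5 * ω - 66 * x ^ 5 - 9 * x ^ 4 * ω ^ 2 - 12 * x ^ 4 * ω - 30 * x ^ 4 -
        3 * x ^ 3 - 3 * x ^ 2 * ω + 21 * x ^ 2 - 18 * x - ω + 16) * hω

end

lemma conj_omega {F K : Type} [Field F] [NumberField F] [IsTotallyReal F] [Field K] [NumberField K]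
    [IsTotallyComplex K] [Algebra F K] (hFK : Module.finrank F K = 2) (c : K ≃ₐ[F] K) (hc : c ≠ 1)
    {ω : K} (hω : ω ^ 2 + ω + 1 = 0) : c ω = ω ^ 2 := by
  obtain ⟨φ⟩ : Nonempty (K →+* ℂ) := inferInstance
  apply φ.injective
  rw [conj_comp hFK c hc φ ω, map_pow]
  have h3 : φ ω ^ 3 = 1 := by
    rw [← map_pow]
    have : ω ^ 3 = 1 := by linear_combination (ω - 1) * hω
    rw [this, map_one]
  have hn : ‖φ ω‖ = 1 := by
    have h4 : ‖φ ω‖ ^ 3 = 1 := by rw [← norm_pow, h3, norm_one]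
    exact (pow_eq_one_iff_of_nonneg (norm_nonneg _) (by norm_num)).1 h4
  have h5 : φ ω * (starRingEnd ℂ) (φ ω) = 1 := by
    rw [Complex.mul_conj, Complex.normSq_eq_norm_sq, hn]
    norm_num
  have h6 : φ ω ≠ 0 := left_ne_zero_of_mul_eq_one h5
  apply mul_left_cancel₀ h6
  rw [h5, ← h3]
  ring

/-- **The family.** -/
theorem cubic_main {K F : Type} [Field F] [NumberField F] [IsTotallyReal F]
    [Field K] [NumberField K] [IsTotallyComplex K] [Algebra F K]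
    (hF : Module.finrank ℚ F = 2) (hFK : Module.finrank F K = 2)
    {ω : K} (hω : ω ^ 2 + ω + 1 = 0) (η : (𝓞 F)ˣ) (hη : ∀ k : ℕ, 0 < k → η ^ k ≠ 1)
    (P : Finset ℕ) :
    ∃ M₀ : ℕ, 0 < M₀ ∧ ∀ M : ℕ, 0 < M → M₀ ∣ M → ∀ x : K,
      x = algebraMap F K (((η : 𝓞 F) : F) ^ M) → ∀ α : K,
      α = x ^ 3 - 3 * ω ^ 2 * x ^ 2 + 3 * x - 1 →
      Irreducible (X ^ 3 - C α : K[X]) ∧
      (∀ c : K ≃ₐ[F] K, c ≠ 1 → (∀ γ : K, α * c α ≠ γ ^ 3) ∧ (∀ γ : K, α ≠ γ ^ 3 * c α)) ∧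
      ∀ (H : Type) [Field H] [NumberField H] [Algebra K H] (θ : H),
        Module.finrank K H = 3 → θ ^ 3 = algebraMap K H α →
        ∀ (p : ℕ) [Fact p.Prime], p ∈ P → ∀ S : Set (K →+* ℂ_[p]), IsCMType p F K S →
          ∀ χ : (H ≃ₐ[K] H) →* ℂ_[p]ˣ, χ ≠ 1 → SigmaLeopoldt p K H S χ := by
  classical
  obtain ⟨g1, g2, g3, g4⟩ := omega_ne hω
  have hz := prim_three hω
  have hωint : IsIntegral ℤ ω := hz.isIntegral (by norm_num)
  have h4 : Module.finrank ℚ K = 4 := by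
    rw [← Module.finrank_mul_finrank ℚ F K, hF, hFK]
  obtain ⟨X₀, hX₀⟩ := cubes_no h4 hω
  obtain ⟨N, hN⟩ := places_pow (K := K) h4 η hη X₀
  -- the primes
  have hm : ∀ p : ℕ, ∃ m : ℕ, 0 < m ∧ ∀ [Fact p.Prime], ∀ M : ℕ, m ∣ M → ∀ x : F,
      x = ((η : 𝓞 F) : F) ^ M → x ≠ 1 →
      Algebra.norm ℚ x = 1 → ∀ α : K,
      α = (cubicDat hω).A.eval (algebraMap F K x) →
      Irreducible (X ^ 3 - C α : K[X]) →
      ∀ (H : Type) [Field H] [NumberField H] [Algebra K H] (θ : H),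
        Module.finrank K H = 3 → θ ^ 3 = algebraMap K H α →
        (∀ i, ∃ ε : (𝓞 H)ˣ, ((ε : 𝓞 H) : H) =
          (θ - algebraMap K H (((cubicDat hω).B i).eval (algebraMap F K x))) /
          (θ - algebraMap K H ω *
            algebraMap K H (((cubicDat hω).B i).eval (algebraMap F K x)))) →
        ∀ S : Set (K →+* ℂ_[p]), IsCMType p F K S →
          ∀ χ : (H ≃ₐ[K] H) →* ℂ_[p]ˣ, χ ≠ 1 → SigmaLeopoldt p K H S χ := by
    intro p
    by_cases hp : p.Prime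
    · have : Fact p.Prime := ⟨hp⟩
      obtain ⟨m, hm, h⟩ := pair_main p hF hFK (by norm_num : 1 < 3) (cubicDat hω) hz η
      exact ⟨m, hm, fun M => h M⟩
    · exact ⟨1, one_pos, fun {_} => absurd (Fact.out : p.Prime) hp⟩
  choose m hm0 hm using hm
  refine ⟨2 * (N + 1) * ∏ p ∈ P, m p, by
    have : 0 < ∏ p ∈ P, m p := Finset.prod_pos fun p _ => hm0 p
    positivity, ?_⟩
  intro M hMpos hM x hx α hα
  have hMN : N ≤ M := by
    have h1 : N + 1 ∣ M := (Dvd.intro_left 2 rfl : N + 1 ∣ 2 * (N + 1)).trans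
      ((Dvd.intro _ rfl).trans hM)
    have := Nat.le_of_dvd hMpos h1
    omega
  have hM2 : 2 ∣ M := ((Dvd.intro (N + 1) rfl : 2 ∣ 2 * (N + 1)).trans (Dvd.intro _ rfl)).trans hM
  set x₀ : F := ((η : 𝓞 F) : F) ^ M with hx₀
  have hx1 : x₀ ≠ 1 := by
    intro h
    apply hη M hMpos
    apply Units.ext
    apply RingOfIntegers.ext
    have h9 : (((η ^ M : (𝓞 F)ˣ) : 𝓞 F) : F) = ((η : 𝓞 F) : F) ^ M := by
      rw [Units.val_pow_eq_pow_val]
      exact map_pow (algebraMap (𝓞 F) F) _ _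
    rw [h9, ← hx₀, h]
    exact (map_one (algebraMap (𝓞 F) F)).symm
  have hnorm : Algebra.norm ℚ x₀ = 1 := norm_even η hM2
  have hAev : ∀ y : K, (cubicDat hω).A.eval y = y ^ 3 - 3 * ω ^ 2 * y ^ 2 + 3 * y - 1 := by
    intro y
    change (cA ω).eval y = _
    unfold cA
    simp only [eval_sub, eval_add, eval_mul, eval_pow, eval_X, eval_C, eval_one]
  have hα' : α = (cubicDat hω).A.eval (algebraMap F K x₀) := by rw [hAev, ← hx, hα]
  have hxint₀ : IsIntegral ℤ x₀ := (RingOfIntegers.isIntegral_coe (η : 𝓞 F)).pow M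
  have hxKint : IsIntegral ℤ x := by
    rw [hx]
    exact hxint₀.map (algebraMap F K).toIntAlgHom
  obtain ⟨w, w', hne, h5, h6⟩ := hN M hMN
  rw [← hx₀, ← hx] at h5 h6
  have hcub := hX₀ w w' hne x hxKint h5 h6
  have hα0 : α ≠ 0 := by
    intro h
    apply (hcub 0).1
    rw [← hα, h]
    norm_num
  have hirr := irr_of_prime (by norm_num : 0 < 3) hz hα0 (fun q hq hq3 γ => by
    have hq' : q = 3 := (Nat.prime_dvd_prime_iff_eq hq Nat.prime_three).1 hq3
    subst hq'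
    rw [hα]
    exact (hcub γ).1)
  refine ⟨hirr, ?_, ?_⟩
  · intro c hc
    have hcx : c x = x := by rw [hx]; exact c.commutes _
    have hcω := conj_omega hFK c hc hω
    have hcα : c α = x ^ 3 - 3 * ω * x ^ 2 + 3 * x - 1 := by
      rw [hα]
      simp only [map_sub, map_add, map_mul, map_pow, hcx, hcω, map_one, map_ofNat]
      have hω4 : (ω ^ 2) ^ 2 = ω := by linear_combination (ω ^ 2 - ω) * hω
      rw [hω4]
    constructor
    · intro γ hγ
      apply (hcub γ).2.1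
      rw [← hγ, hcα, hα]
    · intro γ hγ
      apply (hcub (γ ^ 2 * c α)).2.2
      have h7 : (γ ^ 2 * c α) ^ 3 = (γ ^ 3 * c α) ^ 2 * c α := by ring
      rw [h7, ← hγ, hcα, hα]
  · intro H _ _ _ θ hKH hθ p _ hpP S hS χ hχ
    have hmp : m p ∣ M := (Finset.dvd_prod_of_mem m hpP).trans ((Dvd.intro_left _ rfl).trans hM)
    refine hm p M hmp x₀ hx₀ hx1 hnorm α hα' hirr H θ hKH hθ ?_ S hS χ hχ
    rw [← hx]
    -- the units
    have hxi : ∃ xi : F, IsIntegral ℤ xi ∧ x₀ * xi = 1 := by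
      refine ⟨(((η⁻¹ : (𝓞 F)ˣ) : 𝓞 F) : F) ^ M, (RingOfIntegers.isIntegral_coe _).pow M, ?_⟩
      rw [hx₀, ← mul_pow]
      have h1 : ((η : 𝓞 F) : F) * (((η⁻¹ : (𝓞 F)ˣ) : 𝓞 F) : F) = 1 := by
        rw [← map_mul, Units.mul_inv, map_one]
      rw [h1, one_pow]
    obtain ⟨xi, hxi1, hxi2⟩ := hxi
    set a := algebraMap K H with ha
    set xH : H := a x with hxH
    set w₁ : H := a ω with hw₁
    have hw : w₁ ^ 2 + w₁ + 1 = 0 := by
      have := congrArg a hω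
      simpa using this
    have hxH0 : xH ≠ 0 := by
      rw [hxH, Ne, map_eq_zero, hx, map_eq_zero]
      exact left_ne_zero_of_mul_eq_one hxi2
    have hxHint : IsIntegral ℤ xH := hxKint.map a.toIntAlgHom
    have hxHinv : IsIntegral ℤ (xH⁻¹) := by
      have h1 : xH⁻¹ = a (algebraMap F K xi) := by
        symm
        apply eq_inv_of_mul_eq_one_right
        rw [hxH, hx, ← map_mul, ← map_mul, hxi2, map_one, map_one]
      rw [h1]
      exact (hxi1.map (algebraMap F K).toIntAlgHom).map a.toIntAlgHom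
    have hwint : IsIntegral ℤ w₁ := hωint.map a.toIntAlgHom
    have hw0 : w₁ ≠ 0 := (omega_ne hw).1
    have hwinv : IsIntegral ℤ (w₁⁻¹) := by
      have h1 : w₁⁻¹ = w₁ ^ 2 := by
        symm
        apply eq_inv_of_mul_eq_one_right
        linear_combination (w₁ - 1) * hw
      rw [h1]
      exact hwint.pow 2
    have hl0 : w₁ - w₁ ^ 2 ≠ 0 := (omega_ne hw).2.2.2
    have hθ' : θ ^ 3 = xH ^ 3 - 3 * w₁ ^ 2 * xH ^ 2 + 3 * xH - 1 := by
      rw [hθ, hα]
      simp only [map_sub, map_add, map_mul, map_pow, map_one, map_ofNat]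
      rfl
    have hθint : IsIntegral ℤ θ := by
      refine IsIntegral.of_pow (n := 3) (by norm_num) ?_
      rw [hθ]
      refine IsIntegral.map a.toIntAlgHom ?_
      rw [hα]
      have i3 : IsIntegral ℤ (3 : K) := by
        have h := isIntegral_algebraMap (R := ℤ) (A := K) (x := 3)
        simpa using h
      exact (((hxKint.pow 3).sub ((i3.mul (hωint.pow 2)).mul (hxKint.pow 2))).add
        (i3.mul hxKint)).sub isIntegral_one
    have key : ∀ b v : H, IsIntegral ℤ b → IsIntegral ℤ v → IsIntegral ℤ v⁻¹ → v ≠ 0 →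
        θ ^ 3 = b ^ 3 + (w₁ - w₁ ^ 2) ^ 3 * v →
        ∃ ε : (𝓞 H)ˣ, ((ε : 𝓞 H) : H) = (θ - b) / (θ - w₁ * b) := by
      intro b v hb hv hv' hv0 h
      obtain ⟨e1, he1⟩ := unit_lam hw hθint hb hv hv' hv0 h
      obtain ⟨e2, he2⟩ := unit_lam (b := w₁ * b) hw hθint (hwint.mul hb) hv hv' hv0 (by
        rw [h, mul_pow]
        have : w₁ ^ 3 = 1 := by linear_combination (w₁ - 1) * hw
        rw [this, one_mul])
      refine ⟨e1 * e2⁻¹, ?_⟩
      have h7 : ((e2⁻¹ : (𝓞 H)ˣ) : 𝓞 H) * (e2 : 𝓞 H) = 1 := e2.inv_mul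
      have h8 : (((e2⁻¹ : (𝓞 H)ˣ) : 𝓞 H) : H) * ((e2 : 𝓞 H) : H) = 1 := by
        rw [← map_mul, h7, map_one]
      have h9 : ((e2 : 𝓞 H) : H) ≠ 0 := right_ne_zero_of_mul_eq_one h8
      have h10 : (((e2⁻¹ : (𝓞 H)ˣ) : 𝓞 H) : H) = ((e2 : 𝓞 H) : H)⁻¹ :=
        eq_inv_of_mul_eq_one_left h8
      have h12 : (((e1 * e2⁻¹ : (𝓞 H)ˣ) : 𝓞 H) : H) =
          ((e1 : 𝓞 H) : H) * (((e2⁻¹ : (𝓞 H)ˣ) : 𝓞 H) : H) := rfl
      rw [h12, h10, he1, he2, ← div_eq_mul_inv, div_div_div_cancel_right₀ hl0]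
    have i1 : ∀ i : Fin 2, i = 0 ∨ i = 1 := by decide
    intro i
    rcases i1 i with rfl | rfl
    · have hB : ((cubicDat hω).B 0).eval x = x - 1 := by
        change (X - 1 : K[X]).eval x = _
        rw [eval_sub, eval_X, eval_one]
      rw [hB, map_sub, map_one]
      refine key (xH - 1) (w₁ * xH ^ 2) (hxHint.sub isIntegral_one) (hwint.mul (hxHint.pow 2)) ?_
        (mul_ne_zero hw0 (pow_ne_zero _ hxH0)) ?_
      · rw [mul_inv, ← inv_pow]
        exact hwinv.mul (hxHinv.pow 2)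
      · rw [hθ']
        linear_combination (xH ^ 2 * w₁ ^ 5 - 4 * xH ^ 2 * w₁ ^ 4 + 6 * xH ^ 2 * w₁ ^ 3 -
          3 * xH ^ 2 * w₁ ^ 2 - 3 * xH ^ 2 * w₁ + 3 * xH ^ 2) * hw
    · have hB : ((cubicDat hω).B 1).eval x = x - ω ^ 2 := by
        change (X - C (ω ^ 2) : K[X]).eval x = _
        rw [eval_sub, eval_X, eval_C]
      rw [hB, map_sub, map_pow]
      refine key (xH - w₁ ^ 2) (-w₁ ^ 2 * xH) (hxHint.sub (hwint.pow 2))
        (((hwint.pow 2).neg).mul hxHint) ?_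
        (mul_ne_zero (neg_ne_zero.2 (pow_ne_zero _ hw0)) hxH0) ?_
      · rw [mul_inv, inv_neg, ← inv_pow]
        exact ((hwinv.pow 2).neg).mul hxHinv
      · rw [hθ']
        linear_combination (-xH * w₁ ^ 6 + 4 * xH * w₁ ^ 5 - 6 * xH * w₁ ^ 4 + 3 * xH * w₁ ^ 3 -
          3 * xH * w₁ + 3 * xH + w₁ ^ 4 - w₁ ^ 3 + w₁ - 1) * hw

end Pool.Agent.H76.Q2
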