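import Mathlib
import Pool.Agent.H76.Q2.Pair
import Pool.Agent.H76.Q2.Units
import Pool.Agent.H76.KF.NonPow

set_option autoImplicit false

/-!
# The family `α = 1 + η ^ (n M)`
-/

namespace Pool.Agent.H76.Q2

open NumberField Polynomial
open Pool.Agent.W289.SL
open Pool.Agent.H76.KF (irr_of_prime exists_unit')

/-- the data `A = 1 + X ^ n`, `B = 1, X` -/
noncomputable def fermatDat (K : Type) [Field K] [CharZero K] (n : ℕ) (hn : 0 < n) : KDat K n where
  A := 1 + X ^ n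
  A' := X ^ n + 1
  B := ![1, X]
  B' := ![X, 1]
  κ := ![1, 1]
  m := ![n, 0]
  m' := ![0, n]
  rel := by
    intro i
    fin_cases i <;> simp
  rel' := by
    intro i
    fin_cases i <;> simp
  κne := by
    intro i
    fin_cases i <;> simp
  A0 := by simp [zero_pow hn.ne']
  A0' := by simp [zero_pow hn.ne']
  A1 := by
    rw [eval_add, eval_one, eval_pow, eval_X, one_pow]
    norm_num
  A1' := by
    rw [eval_add, eval_one, eval_pow, eval_X, one_pow]
    norm_num
  mne := by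
    simp [hn.ne']
  revA := by
    intro Ω _ φ u hu
    simp only [Polynomial.map_add, Polynomial.map_one, Polynomial.map_pow, Polynomial.map_X,
      eval_add, eval_one, eval_pow, eval_X]
    have h : u ^ n ≠ 0 := pow_ne_zero _ hu
    rw [inv_pow, mul_add, mul_one, mul_inv_cancel₀ h]
  revB := by
    intro Ω _ φ u i hu
    fin_cases i
    · simp
    · simp [hu]

/-- **The family.** -/
theorem fermat_main {K F : Type} [Field F] [NumberField F]
    [Field K] [NumberField K] [IsTotallyComplex K] [Algebra F K]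
    (hF : Module.finrank ℚ F = 2) (hFK : Module.finrank F K = 2) {n : ℕ} (hn : 1 < n)
    {z : K} (hz : IsPrimitiveRoot z n) (η : (𝓞 F)ˣ) (hη : ∀ k : ℕ, 0 < k → η ^ k ≠ 1)
    (P : Finset ℕ) (hP : ∀ p ∈ P, p.Prime) :
    ∃ M₀ : ℕ, 0 < M₀ ∧ ∀ M : ℕ, 0 < M → M₀ ∣ M →
      Irreducible (X ^ n - C (algebraMap F K (1 + ((η : 𝓞 F) : F) ^ (n * M))) : K[X]) ∧
      ∀ (H : Type) [Field H] [NumberField H] [Algebra K H] (θ : H),
        Module.finrank K H = n →
        θ ^ n = algebraMap K H (algebraMap F K (1 + ((η : 𝓞 F) : F) ^ (n * M))) →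
        ∀ (p : ℕ) [Fact p.Prime], p ∈ P → ∀ S : Set (K →+* ℂ_[p]), IsCMType p F K S →
          ∀ χ : (H ≃ₐ[K] H) →* ℂ_[p]ˣ, χ ≠ 1 → SigmaLeopoldt p K H S χ := by
  classical
  have hn0 : 0 < n := by omega
  have h4 : Module.finrank ℚ K = 4 := by
    rw [← Module.finrank_mul_finrank ℚ F K, hF, hFK]
  -- irreducibility
  have hirr : ∃ X₀ : ℝ, ∀ (w w' : InfinitePlace K), w ≠ w' → ∀ x : K, IsIntegral ℤ x →
      X₀ < w x → w' x ≤ 1 → ∀ q : ℕ, q.Prime → q ∣ n → ∀ γ : K, γ ^ q ≠ 1 + x ^ n := by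
    have h1 : ∀ q : ℕ, ∃ X₀ : ℝ, q.Prime → q ∣ n → ∀ (w w' : InfinitePlace K), w ≠ w' →
        ∀ x : K, IsIntegral ℤ x → X₀ < w x → w' x ≤ 1 → ∀ γ : K, γ ^ q ≠ 1 + x ^ n := by
      intro q
      by_cases hq : q.Prime ∧ q ∣ n
      · obtain ⟨hq1, m, hm⟩ := hq
        have hm0 : 0 < m := by
          rcases Nat.eq_zero_or_pos m with h | h
          · rw [h, mul_zero] at hm
            omega
          · exact h
        have hζ : IsPrimitiveRoot (z ^ m) q := hz.pow hn0 (by rw [hm]; ring)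
        have hdeg : (X ^ m : K[X]).natDegree = m := natDegree_X_pow m
        obtain ⟨X₀, hX₀⟩ := runge h4 hq1.two_le hζ (X ^ m) 1
          (fun x hx => by rw [eval_pow, eval_X]; exact hx.pow m) (monic_X_pow m)
          (by
            rw [hdeg, natDegree_one]
            have := hq1.two_le
            have h3 : 1 ≤ q - 1 := by omega
            nlinarith) one_ne_zero
        refine ⟨X₀, fun _ _ w w' hne x hx h5 h6 γ hγ => ?_⟩
        refine hX₀ w w' hne x hx h5 h6 γ ?_ ?_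
        · refine IsIntegral.of_pow hq1.pos ?_
          rw [hγ]
          exact isIntegral_one.add (hx.pow n)
        · rw [hγ, eval_pow, eval_X, eval_one, ← pow_mul, mul_comm m q, ← hm]
          ring
      · exact ⟨0, fun h2 h3 => absurd ⟨h2, h3⟩ hq⟩
    choose X₁ hX₁ using h1
    refine ⟨∑ q ∈ Finset.range (n + 1), |X₁ q|, ?_⟩
    intro w w' hne x hx h5 h6 q hq hqn
    refine hX₁ q hq hqn w w' hne x hx ?_ h6
    have h7 : |X₁ q| ≤ ∑ q ∈ Finset.range (n + 1), |X₁ q| :=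
      Finset.single_le_sum (f := fun q => |X₁ q|) (fun q _ => abs_nonneg _)
        (Finset.mem_range.2 (by have := Nat.le_of_dvd hn0 hqn; omega))
    exact lt_of_le_of_lt ((le_abs_self _).trans h7) h5
  obtain ⟨X₀, hX₀⟩ := hirr
  obtain ⟨N, hN⟩ := places_pow (K := K) h4 η hη X₀
  -- the primes
  have hm : ∀ p : ℕ, ∃ m : ℕ, 0 < m ∧ ∀ [Fact p.Prime], ∀ M : ℕ, m ∣ M → ∀ x : F,
      x = ((η : 𝓞 F) : F) ^ M → x ≠ 1 →
      Algebra.norm ℚ x = 1 → ∀ α : K,
      α = (fermatDat K n hn0).A.eval (algebraMap F K x) →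
      Irreducible (X ^ n - C α : K[X]) →
      ∀ (H : Type) [Field H] [NumberField H] [Algebra K H] (θ : H),
        Module.finrank K H = n → θ ^ n = algebraMap K H α →
        (∀ i, ∃ ε : (𝓞 H)ˣ, ((ε : 𝓞 H) : H) =
          (θ - algebraMap K H (((fermatDat K n hn0).B i).eval (algebraMap F K x))) /
          (θ - algebraMap K H z *
            algebraMap K H (((fermatDat K n hn0).B i).eval (algebraMap F K x)))) →
        ∀ S : Set (K →+* ℂ_[p]), IsCMType p F K S →
          ∀ χ : (H ≃ₐ[K] H) →* ℂ_[p]ˣ, χ ≠ 1 → SigmaLeopoldt p K H S χ := by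
    intro p
    by_cases hp : p.Prime
    · have : Fact p.Prime := ⟨hp⟩
      obtain ⟨m, hm, h⟩ := pair_main p hF hFK hn (fermatDat K n hn0) hz η
      exact ⟨m, hm, fun M => h M⟩
    · exact ⟨1, one_pos, fun {_} => absurd (Fact.out : p.Prime) hp⟩
  choose m hm0 hm using hm
  refine ⟨2 * (N + 1) * ∏ p ∈ P, m p, by
    have : 0 < ∏ p ∈ P, m p := Finset.prod_pos fun p _ => hm0 p
    positivity, ?_⟩
  intro M hMpos hM
  have hMN : N ≤ M := by
    have h1 : N + 1 ∣ M := (Dvd.intro_left 2 rfl : N + 1 ∣ 2 * (N + 1)).trans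
      ((Dvd.intro _ rfl).trans hM)
    have := Nat.le_of_dvd hMpos h1
    omega
  have hM2 : 2 ∣ M := ((Dvd.intro (N + 1) rfl : 2 ∣ 2 * (N + 1)).trans (Dvd.intro _ rfl)).trans hM
  set x : F := ((η : 𝓞 F) : F) ^ M with hx
  have hx1 : x ≠ 1 := by
    intro h
    apply hη M hMpos
    apply Units.ext
    apply RingOfIntegers.ext
    have h9 : (((η ^ M : (𝓞 F)ˣ) : 𝓞 F) : F) = ((η : 𝓞 F) : F) ^ M := by
      rw [Units.val_pow_eq_pow_val]
      exact map_pow (algebraMap (𝓞 F) F) _ _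
    rw [h9, ← hx, h]
    exact (map_one (algebraMap (𝓞 F) F)).symm
  have hnorm : Algebra.norm ℚ x = 1 := norm_even η hM2
  have hα : algebraMap F K (1 + ((η : 𝓞 F) : F) ^ (n * M)) =
      (fermatDat K n hn0).A.eval (algebraMap F K x) := by
    change _ = (1 + X ^ n : K[X]).eval (algebraMap F K x)
    rw [eval_add, eval_one, eval_pow, eval_X, map_add, map_one, hx, map_pow, map_pow, ← pow_mul,
      mul_comm M n]
  have hα' : algebraMap F K (1 + ((η : 𝓞 F) : F) ^ (n * M)) = 1 + algebraMap F K x ^ n := by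
    rw [map_add, map_one, hx, map_pow, map_pow, ← pow_mul, mul_comm M n]
  have hxint : IsIntegral ℤ x := (RingOfIntegers.isIntegral_coe (η : 𝓞 F)).pow M
  have hxKint : IsIntegral ℤ (algebraMap F K x) := hxint.map (algebraMap F K).toIntAlgHom
  obtain ⟨w, w', hne, h5, h6⟩ := hN M hMN
  have hα0 : algebraMap F K (1 + ((η : 𝓞 F) : F) ^ (n * M)) ≠ 0 := by
    obtain ⟨q, hq, hqn⟩ := Nat.exists_prime_and_dvd (by omega : n ≠ 1)
    intro h
    apply hX₀ w w' hne (algebraMap F K x) hxKint h5 h6 q hq hqn 0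
    rw [zero_pow hq.ne_zero, ← hα', h]
  have hirr := irr_of_prime hn0 hz hα0 (fun q hq hqn γ => by
    rw [hα']
    exact hX₀ w w' hne (algebraMap F K x) hxKint h5 h6 q hq hqn γ)
  refine ⟨hirr, ?_⟩
  intro H _ _ _ θ hKH hθ p _ hpP S hS χ hχ
  have hmp : m p ∣ M := (Finset.dvd_prod_of_mem m hpP).trans ((Dvd.intro_left _ rfl).trans hM)
  refine hm p M hmp x hx hx1 hnorm _ hα hirr H θ hKH hθ ?_ S hS χ hχ
  -- the units
  set xH : H := algebraMap K H (algebraMap F K x) with hxH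
  have hxi : ∃ xi : F, IsIntegral ℤ xi ∧ x * xi = 1 := by
    refine ⟨(((η⁻¹ : (𝓞 F)ˣ) : 𝓞 F) : F) ^ M, (RingOfIntegers.isIntegral_coe _).pow M, ?_⟩
    rw [hx, ← mul_pow]
    have h1 : ((η : 𝓞 F) : F) * (((η⁻¹ : (𝓞 F)ˣ) : 𝓞 F) : F) = 1 := by
      rw [← map_mul, Units.mul_inv, map_one]
    rw [h1, one_pow]
  obtain ⟨xi, hxi1, hxi2⟩ := hxi
  have hxH0 : xH ≠ 0 := by
    rw [hxH, Ne, map_eq_zero, map_eq_zero]
    exact left_ne_zero_of_mul_eq_one hxi2
  have hxHint : IsIntegral ℤ xH := hxKint.map (algebraMap K H).toIntAlgHom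
  have hxHinv : IsIntegral ℤ (xH⁻¹) := by
    have h1 : xH⁻¹ = algebraMap K H (algebraMap F K xi) := by
      symm
      apply eq_inv_of_mul_eq_one_right
      rw [hxH, ← map_mul, ← map_mul, hxi2, map_one, map_one]
    rw [h1]
    exact (hxi1.map (algebraMap F K).toIntAlgHom).map (algebraMap K H).toIntAlgHom
  have hθ' : θ ^ n = 1 + xH ^ n := by rw [hθ, hα', map_add, map_one, map_pow]
  have hζH : (algebraMap K H z) ^ n = 1 := by rw [← map_pow, hz.pow_eq_one, map_one]
  intro i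
  fin_cases i
  · change ∃ ε : (𝓞 H)ˣ, ((ε : 𝓞 H) : H) = (θ - algebraMap K H ((1 : K[X]).eval _)) /
      (θ - algebraMap K H z * algebraMap K H ((1 : K[X]).eval _))
    rw [eval_one, map_one]
    refine exists_unit' hn0 (v := xH ^ n) (B := 1) (t := 1) hζH ?_ (pow_ne_zero _ hxH0)
      isIntegral_one one_ne_zero (by rw [one_pow, one_mul]) (by rw [hθ']; ring) ?_
    · rw [← inv_pow]
      exact hxHinv.pow n
    · intro y hy h0
      rw [sub_eq_zero.1 h0, mul_one, hy] at hθ'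
      exact pow_ne_zero n hxH0 (by linear_combination -hθ')
  · change ∃ ε : (𝓞 H)ˣ, ((ε : 𝓞 H) : H) = (θ - algebraMap K H ((X : K[X]).eval _)) /
      (θ - algebraMap K H z * algebraMap K H ((X : K[X]).eval _))
    rw [eval_X]
    refine exists_unit' hn0 (v := 1) (B := xH ^ n) (t := 1) hζH (by rw [inv_one]; exact
      isIntegral_one) one_ne_zero (hxHint.pow n) one_ne_zero (one_mul _) (by rw [hθ']; ring) ?_
    intro y hy h0
    rw [sub_eq_zero.1 h0, mul_pow, hy, one_mul] at hθ'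
    exact one_ne_zero (α := H) (by linear_combination -hθ')

end Pool.Agent.H76.Q2
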